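import Pool.Agent.Helper34_MTL.Hid

/-! Diagonal unions of sets of density zero. -/

set_option autoImplicit false

namespace Pool.Agent.MT100A.H34

open Pool.Agent.MT100 Pool.Agent.MTL.H34

/-- there is one set of density zero which contains the large elements of all the sets `T i` -/
theorem dens_diag (T : ℕ → Set ℕ) (h : ∀ i, DensZero (T i)) :
    ∃ (U : Set ℕ) (N : ℕ → ℕ), DensZero U ∧ ∀ i n, n ∈ T i → N i ≤ n → n ∈ U := by
  set W : ℕ → Set ℕ := fun i => ⋃ j : Fin (i + 1), T j with hW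
  have hWd : ∀ i, DensZero (W i) := fun i => dens_iUnion (fun j : Fin (i + 1) => T j) fun j => h j
  have hM : ∀ i : ℕ, ∃ M : ℕ, ∀ X : ℕ, M ≤ X →
      (Nat.card {n : ℕ // n ∈ W i ∧ n ≤ X} : ℝ) / X < 1 / ((i : ℝ) + 1) := by
    intro i
    have h1 := (hWd i).eventually (gt_mem_nhds (show (0 : ℝ) < 1 / ((i : ℝ) + 1) by positivity))
    exact Filter.eventually_atTop.1 h1
  choose M hM using hM
  set N : ℕ → ℕ := fun i => (∑ j ∈ Finset.range (i + 1), M j) + i with hN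
  have hN1 : ∀ i, M i ≤ N i := by
    intro i
    have h1 : M i ≤ ∑ j ∈ Finset.range (i + 1), M j :=
      Finset.single_le_sum (fun j _ => Nat.zero_le _) (Finset.mem_range.2 (Nat.lt_succ_self i))
    exact le_trans h1 (Nat.le_add_right _ _)
  have hN2 : ∀ i, N i < N (i + 1) := by
    intro i
    have h1 : N (i + 1) = (∑ j ∈ Finset.range (i + 1), M j) + M (i + 1) + (i + 1) := by
      rw [hN]
      simp only
      rw [Finset.sum_range_succ]
    have h2 : N i = (∑ j ∈ Finset.range (i + 1), M j) + i := rfl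
    omega
  have hmono : StrictMono N := strictMono_nat_of_lt_succ hN2
  refine ⟨{n | ∃ i, n ∈ T i ∧ N i ≤ n}, N, ?_, fun i n hn hNn => ⟨i, hn, hNn⟩⟩
  unfold DensZero
  rw [Metric.tendsto_atTop]
  intro ε hε
  obtain ⟨i0, hi0⟩ := exists_nat_one_div_lt hε
  refine ⟨N i0, fun X hX => ?_⟩
  obtain ⟨k, hk1, hk2, hk3⟩ : ∃ k, i0 ≤ k ∧ N k ≤ X ∧ X < N (k + 1) := by
    classical
    have h1 : i0 ≤ X := le_trans hmono.le_apply hX
    refine ⟨Nat.findGreatest (fun k => N k ≤ X) X, Nat.le_findGreatest h1 hX,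
      Nat.findGreatest_spec (P := fun k => N k ≤ X) h1 hX, ?_⟩
    by_contra hlt
    push Not at hlt
    have h2 : Nat.findGreatest (fun k => N k ≤ X) X + 1 ≤ X := le_trans hmono.le_apply hlt
    have h3 := Nat.le_findGreatest (P := fun k => N k ≤ X) h2 hlt
    omega
  have hsub : Nat.card {n : ℕ // n ∈ {n | ∃ i, n ∈ T i ∧ N i ≤ n} ∧ n ≤ X} ≤
      Nat.card {n : ℕ // n ∈ W k ∧ n ≤ X} := by
    have hfin : Finite {n : ℕ // n ∈ W k ∧ n ≤ X} :=
      ((Set.finite_le_nat X).subset fun n hn => hn.2).to_subtype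
    refine Nat.card_le_card_of_injective
      (fun n => ⟨n.1, ?_, n.2.2⟩) ?_
    · obtain ⟨⟨i, hi, hNi⟩, hnX⟩ := n.2
      have h4 : i < k + 1 := by
        by_contra hge
        push Not at hge
        have := hmono.monotone hge
        omega
      exact Set.mem_iUnion.2 ⟨⟨i, h4⟩, hi⟩
    · intro a b hab
      have := congrArg Subtype.val hab
      exact Subtype.ext this
  have h5 := hM k X (le_trans (hN1 k) hk2)
  rw [Real.dist_eq, sub_zero, abs_of_nonneg (by positivity)]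
  calc (Nat.card {n : ℕ // n ∈ {n | ∃ i, n ∈ T i ∧ N i ≤ n} ∧ n ≤ X} : ℝ) / X
      ≤ (Nat.card {n : ℕ // n ∈ W k ∧ n ≤ X} : ℝ) / X := by
        gcongr
    _ < 1 / ((k : ℝ) + 1) := h5
    _ ≤ 1 / ((i0 : ℝ) + 1) := by
        gcongr
    _ < ε := hi0

/-- the same, for properties indexed by the primes -/
theorem diag_prime (Q : ℕ → ℕ → Prop)
    (h : ∀ ℓ : ℕ, ℓ.Prime → ∃ T : Set ℕ, DensZero T ∧ ∀ n, n ∉ T → Q ℓ n) :
    ∃ (T : Set ℕ) (N : ℕ → ℕ), DensZero T ∧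
      ∀ ℓ : ℕ, ℓ.Prime → ∀ n, n ∉ T → N ℓ ≤ n → Q ℓ n := by
  have h1 : ∀ ℓ : ℕ, ∃ T : Set ℕ, DensZero T ∧ (ℓ.Prime → ∀ n, n ∉ T → Q ℓ n) := by
    intro ℓ
    by_cases hl : ℓ.Prime
    · obtain ⟨T, hT, hQ⟩ := h ℓ hl
      exact ⟨T, hT, fun _ => hQ⟩
    · exact ⟨∅, dens_empty, fun h' => absurd h' hl⟩
  choose T hT hQ using h1
  obtain ⟨U, N, hU, hN⟩ := dens_diag T hT
  exact ⟨U, N, hU, fun ℓ hl n hn hNn => hQ ℓ hl n fun hnT => hn (hN ℓ n hnT hNn)⟩

end Pool.Agent.MT100A.H34
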