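import Pool.Agent.Helper34_MTA.Cst3

/-! MT100-C: assembly. -/

set_option autoImplicit false
set_option linter.unusedSectionVars false

namespace Pool.Agent.MT100A.H34

open Matrix Pool.Agent.MT100 Pool.Agent.MT100G Pool.Agent.Helper78_MT Pool.Agent.MTL

universe u

variable {d : Type} [Fintype d] [DecidableEq d] {w : ℕ} {E E' : Matrix d d ℚ}
  {V V' : ℕ → Submodule ℂ (d → ℂ)} {lev : d → ℕ} {P : Matrix d d ℂ}

theorem ue_smul (X : Matrix d d ℂ) (s s' : ℂ) : ue (s • X) s' = ue X (s' * s) := by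
  unfold ue
  refine Finset.sum_congr rfl fun t _ => ?_
  rw [smul_pow, smul_smul, mul_pow, mul_assoc]

/-- the Mumford-Tate group contains the unipotents -/
theorem uni_mem (F : Sys d) (hP : IsUnit P.det) (hInt : F.IntM P) (hw : 1 ≤ w) {n : ℕ}
    (hn : n ∉ S0 F lev P w) (hF : F.Fibre lev P w n E V) :
    ∀ u ∈ Uni (F.Mo P), u ∈ mtGroup w V ℂ := by
  rintro u ⟨X, hX, rfl, hcl⟩
  refine H64.lie d w E V hw hF.1 X hX (fun s => H97.iso_zclosure hF.2.1 (hcl s)) ?_ 1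
  intro t ht s
  refine inv_of H20.ten H78.teu F hP hInt hw hn hF ht (ue X s) ⟨s • X, ?_, ?_, fun s' => ?_⟩
  · obtain ⟨k, hk⟩ := hX
    exact ⟨k, by rw [smul_pow, hk, smul_zero]⟩
  · rw [ue_smul, one_mul]
  · rw [ue_smul]
    exact hcl _

/-- the Mumford-Tate group is `Gen` -/
theorem mt_gen (F : Sys d) (hP : IsUnit P.det) (hInt : F.IntM P) (hw : 1 ≤ w) {n : ℕ}
    (hn : n ∉ S0 F lev P w) (hF : F.Fibre lev P w n E V) (K : Type u) [Field K] [CharZero K] :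
    mtGroup w V K = F.Gen P w V K := by
  have hU := uni_mem F hP hInt hw hn hF
  refine Set.Subset.antisymm ?_ ?_
  · intro M hM I hI hT _
    exact hM I hI hT
  · intro M hM I hI hT
    exact hM I hI hT fun u hu => hU u hu I hI hT

/-- the Mumford-Tate group at `n` contains the one at `x` -/
theorem mt_sub (h : hodgeTorus w V' ⊆ mtGroup w V ℂ) (K : Type u) [Field K] [CharZero K] :
    mtGroup w V' K ⊆ mtGroup w V K := by
  intro M hM I hI hT
  exact hM I hI fun T hT' => h hT' I hI hT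

/-- the final form -/
theorem finC (d : Type) [Fintype d] [DecidableEq d] (F : Sys d) (w : ℕ) (lev : d → ℕ)
    (hw : 1 ≤ w) :
    ∃ (C : ℕ) (n1 : ℕ → ℕ) (n0 : ℕ), ∀ P : Matrix d d ℂ, IsUnit P.det → F.IntM P →
      ∃ S : Set ℕ, DensZero S ∧
        (∀ K n : ℕ, n1 K ≤ n → Nat.card {m : ℕ // m ∈ S ∧ n < m + K ∧ m ≤ n} ≤ C) ∧
        (∀ n : ℕ, n ∉ S → ∀ (E : Matrix d d ℚ) (V : ℕ → Submodule ℂ (d → ℂ)),
          F.Fibre lev P w n E V →
          (∀ (K : Type u) [Field K] [CharZero K], mtGroup w V K = F.Gen P w V K ∧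
            (F.Tor P w V → mtGroup w V K = F.Gm P K)) ∧
          ∀ R : ℝ, n0 ≤ R → R < n → F.FixedPart lev P w R →
            ∀ x : ℂ, R < x.re → ∀ (E' : Matrix d d ℚ) (V' : ℕ → Submodule ℂ (d → ℂ)),
            PolHodge w E' V' → F.HasFil lev P x V' →
            ∀ (K : Type u) [Field K] [CharZero K], mtGroup w V' K ⊆ mtGroup w V K) ∧
        ∀ (ℓ : ℕ) [Fact ℓ.Prime] (ρ : GT →* GL d ℚ_[ℓ]), Continuous ρ →
          ∃ T : Set ℕ, DensZero T ∧ ∀ n : ℕ, n ∉ S → n ∉ T →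
            ∀ (E : Matrix d d ℚ) (V : ℕ → Submodule ℂ (d → ℂ)), F.Fibre lev P w n E V →
            ∀ ρn : GQ →* GL d ℚ_[ℓ], Specializes ρ n ρn →
            ∀ (K : Type u) [Field K] [CharZero K] [Algebra ℚ_[ℓ] K],
              (monodromy ρn K = mtGroup w V K ↔ monodromy ρ K = F.Gen P w V K) ∧
              ∀ R : ℝ, n0 ≤ R → R < n → F.FixedPart lev P w R →
                ∀ n' : ℕ, n' ∉ S → n' ∉ T → R < n' →
                ∀ (E' : Matrix d d ℚ) (V' : ℕ → Submodule ℂ (d → ℂ)), F.Fibre lev P w n' E' V' →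
                ∀ ρn' : GQ →* GL d ℚ_[ℓ], Specializes ρ n' ρn' →
                  (monodromy ρn K = mtGroup w V K ↔ monodromy ρn' K = mtGroup w V' K) := by
  obtain ⟨C, n1, h⟩ := H97.ela' H81.hmn d F 4 {a | 2 * w < ∑ j, lev (a j)}
  obtain ⟨n0, hdet, hcont⟩ := half F
  refine ⟨C, n1, n0, fun P hP hInt => ?_⟩
  obtain ⟨hwin, hden⟩ := h P hP (S0 F lev P w) fun n hn => hn
  have hsub : ∀ n : ℕ, n ∉ S0 F lev P w → ∀ (E : Matrix d d ℚ)
      (V : ℕ → Submodule ℂ (d → ℂ)), F.Fibre lev P w n E V →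
      ∀ R : ℝ, n0 ≤ R → R < n → F.FixedPart lev P w R →
        ∀ x : ℂ, R < x.re → ∀ (E' : Matrix d d ℚ) (V' : ℕ → Submodule ℂ (d → ℂ)),
        PolHodge w E' V' → F.HasFil lev P x V' →
        ∀ (K : Type u) [Field K] [CharZero K], mtGroup w V' K ⊆ mtGroup w V K := by
    intro n hn E V hF R hR hnR hFP x hx E' V' hV' hFil' K _ _
    exact mt_sub (torus_sub F hP hInt hw hdet hcont hR hFP hn hnR hF hx hV' hFil') K
  refine ⟨S0 F lev P w, hden, hwin, fun n hn E V hF => ⟨fun K _ _ =>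
    ⟨mt_gen F hP hInt hw hn hF K, fun hT => ?_⟩, hsub n hn E V hF⟩, fun ℓ _ ρ hρ => ?_⟩
  · rw [mt_gen F hP hInt hw hn hF K]
    exact H97.gen_eq F hP hInt hw hF.1 hF.2.1 hT K
  · obtain ⟨T, hT, h3⟩ := specialise.{u} serAll ρ hρ
    refine ⟨T, hT, fun n hnS hnT E V hF ρn hsp K _ _ _ => ⟨?_, ?_⟩⟩
    · rw [(h3 n hnT ρn hsp).2.2 K, mt_gen F hP hInt hw hnS hF K]
    · intro R hR hnR hFP n' hnS' hnT' hnR' E' V' hF' ρn' hsp'
      have e1 : mtGroup w V' K = mtGroup w V K := Set.Subset.antisymm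
        (hsub n hnS E V hF R hR hnR hFP n' (by rwa [Complex.natCast_re]) E' V' hF'.1 hF'.2.2 K)
        (hsub n' hnS' E' V' hF' R hR hnR' hFP n (by rwa [Complex.natCast_re]) E V hF.1 hF.2.2 K)
      rw [(h3 n hnT ρn hsp).2.2 K, (h3 n' hnT' ρn' hsp').2.2 K, e1]

end Pool.Agent.MT100A.H34
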