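import Pool.Agent.Helper34_MTA.Lie3
import Pool.Agent.Helper97_MTA.Maa
import Pool.Agent.MT100A.DefsC

/-! MT100-C: Hodge forms and Hodge tensors at the points; invariance. -/

set_option autoImplicit false
set_option linter.unusedSectionVars false

namespace Pool.Agent.MT100A.H34

open Matrix Pool.Agent.MT100 Pool.Agent.MT100G Pool.Agent.Helper78_MT Pool.Agent.MT100A.H64
  Pool.Agent.Helper46_MT

variable {d : Type} [Fintype d] [DecidableEq d] {w : ℕ} {E : Matrix d d ℚ}
  {V : ℕ → Submodule ℂ (d → ℂ)} {lev : d → ℕ} {P : Matrix d d ℂ}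

/-- a Hodge form of degree four is a Hodge tensor at the point -/
theorem hodgeAt_of_hdg (F : Sys d) {c : ℂ} (hFil : F.HasFil lev P c V) {t : (Fin 4 → d) → ℚ}
    (ht : Hdg w V t) : F.HodgeAt lev P w c t := by
  intro a ha
  exact MT100G.H97.frm_fil t V w (fun p x hx hp => ht p x hx (by omega))
    (fun j => lev (a j)) (show 2 * w < ∑ j, lev (a j) by omega) (fun j => F.per P c (a j)) (fun j => by
      rw [hFil (lev (a j))]
      exact Submodule.subset_span ⟨a j, le_refl _, rfl⟩)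

/-- a Hodge tensor at the point is a Hodge form of degree four -/
theorem hdg_of_hodgeAt (F : Sys d) {c : ℂ} (hV : PolHodge w E V) (hFil : F.HasFil lev P c V)
    {t : (Fin 4 → d) → ℚ} (ht : F.HodgeAt lev P w c t) : Hdg w V t := by
  have hup : ∀ (p : Fin 4 → ℕ) (x : Fin 4 → d → ℂ), (∀ j, x j ∈ V (p j)) → 2 * w < ∑ j, p j →
      ∑ β, (t β : ℂ) * ∏ j, x j (β j) = 0 := by
    intro p x hx hp
    have h1 := MT100G.H97.frm_span t 1 (fun j => {y | ∃ a : d, p j ≤ lev a ∧ y = F.per P c a})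
      (fun y hy => by
        choose a ha hya using hy
        have h2 := ht a (by
          have := Finset.sum_le_sum fun j (_ : j ∈ Finset.univ) => ha j
          omega)
        unfold MT100G.H97.frm
        rw [← h2]
        refine Finset.sum_congr rfl fun β _ => ?_
        congr 1
        refine Finset.prod_congr rfl fun j _ => ?_
        show ((1 : Matrix d d ℂ) *ᵥ y j) (β j) = _
        rw [one_mulVec, hya j]) x (fun j => by
        rw [← hFil (p j)]
        refine (?_ : V (p j) ≤ _) (hx j)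
        exact le_iSup₂_of_le (p j) (Set.mem_Ici.2 (le_refl _)) (le_refl _))
    simp only [one_mulVec] at h1
    exact h1
  intro p x hx hp
  by_cases hlt : 2 * w < ∑ j, p j
  · exact hup p x hx hlt
  by_cases hple : ∀ j, p j ≤ w
  · have h1 := hup (fun j => w - p j) (fun j => star (x j))
      (fun j => hV.conj (p j) (hple j) (x j) (hx j)) (by
        have h2 : ∑ j : Fin 4, (w - p j) + ∑ j, p j = 4 * w := by
          rw [← Finset.sum_add_distrib]
          rw [Finset.sum_congr rfl (fun j _ => Nat.sub_add_cancel (hple j))]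
          simp
        omega)
    have h2 := congrArg star h1
    rw [star_zero, star_sum] at h2
    rw [← h2]
    refine Finset.sum_congr rfl fun β _ => ?_
    rw [star_mul', star_prod]
    congr 1
    · simp
    · refine Finset.prod_congr rfl fun j _ => ?_
      rw [Pi.star_apply, star_star]
  · push Not at hple
    obtain ⟨j, hj⟩ := hple
    have hx0 : x j = 0 := by
      have := hx j
      rw [hV.top (p j) hj, Submodule.mem_bot] at this
      exact this
    refine Finset.sum_eq_zero fun β _ => ?_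
    rw [Finset.prod_eq_zero (Finset.mem_univ j) (by rw [hx0, Pi.zero_apply]), mul_zero]

/-- the set of the exceptional points -/
def S0 (F : Sys d) (lev : d → ℕ) (P : Matrix d d ℂ) (w : ℕ) : Set ℕ :=
  {n | ∃ t : (Fin 4 → d) → ℚ,
      (∀ a ∈ {a : Fin 4 → d | 2 * w < ∑ j, lev (a j)},
        ∑ β, (t β : ℂ) * ∏ j, F.per P n (a j) (β j) = 0) ∧
      ∃ g ∈ F.Zc, ∃ a ∈ {a : Fin 4 → d | 2 * w < ∑ j, lev (a j)},
        ∑ β, (t β : ℂ) * ∏ j, (P *ᵥ (YH F.H F.N n * g) (a j)) (β j) ≠ 0}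

/-- the Hodge forms at a point which is not exceptional are invariant under the unipotents -/
theorem inv_of (hT : TenStmt) (hU : TeuStmt) (F : Sys d) (hP : IsUnit P.det) (hInt : F.IntM P)
    (hw : 1 ≤ w) {n : ℕ} (hn : n ∉ S0 F lev P w) (hF : F.Fibre lev P w n E V)
    {t : (Fin 4 → d) → ℚ} (ht : Hdg w V t) :
    ∀ u ∈ Uni (F.Mo P), tA (fun β => (t β : ℂ)) u = fun β => (t β : ℂ) := by
  obtain ⟨hV, hInv, hFil⟩ := hF
  have hfil : ∀ g ∈ F.Zc, ∀ (p : Fin 4 → ℕ) (x : Fin 4 → d → ℂ), (∀ j, x j ∈ V (p j)) →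
        2 * w < ∑ j, p j →
        ∑ β, (t β : ℂ) * ∏ j, ((P * gᵀ * P⁻¹) *ᵥ x j) (β j) = 0 := by
    intro g hg p x hx hp
    have hker : ∀ a ∈ {a : Fin 4 → d | 2 * w < ∑ j, lev (a j)},
        ∑ β, (t β : ℂ) * ∏ j, F.per P n (a j) (β j) = 0 := by
      intro a ha
      exact hodgeAt_of_hdg F hFil ht a (by
        have : 2 * w < ∑ j, lev (a j) := ha
        omega)
    refine MT100G.H97.frm_span t (P * gᵀ * P⁻¹)
      (fun j => {y | ∃ a : d, p j ≤ lev a ∧ y = F.per P n a}) ?_ x ?_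
    · intro y hy
      choose a ha hya using hy
      have h2 : ∑ β, (t β : ℂ) * ∏ j, (P *ᵥ (YH F.H F.N n * g) (a j)) (β j) = 0 := by
        by_contra hne
        refine hn ⟨t, hker, g, hg, a, ?_, hne⟩
        exact lt_of_lt_of_le hp (Finset.sum_le_sum fun j _ => ha j)
      unfold MT100G.H97.frm
      rw [← h2]
      refine Finset.sum_congr rfl fun β _ => ?_
      congr 1
      refine Finset.prod_congr rfl fun j _ => ?_
      show ((P * gᵀ * P⁻¹) *ᵥ y j) (β j) = _
      rw [hya j, H97.per_act F hP]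
    · intro j
      show x j ∈ Submodule.span ℂ {y | ∃ a : d, p j ≤ lev a ∧ y = F.per P n a}
      rw [← hFil (p j)]
      refine (?_ : V (p j) ≤ _) (hx j)
      exact le_iSup₂_of_le (p j) (Set.mem_Ici.2 (le_refl _)) (le_refl _)
  rintro u ⟨X, hX, rfl, hcl⟩
  refine hU d (F.Mo P) 4 (fun β => (t β : ℂ)) ?_ X hX hcl 1
  set M : Set (Matrix d d ℤ) := {A | A.map (fun x => (x : ℂ)) ∈ F.Mo P} with hM
  have hfin := hT d w E V hw hV 4 M ?_ t ?_
  · refine (hfin.image fun s β => ((s β : ℚ) : ℂ)).subset ?_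
    rintro s ⟨γ, hγ, rfl⟩
    obtain ⟨B, hB⟩ := hInt γ hγ
    refine ⟨_, ⟨B, by rw [hM]; show _ ∈ F.Mo P; rw [← hB]; exact hγ, rfl⟩, ?_⟩
    funext α
    show ((tA t (B.map (fun x => (x : ℚ))) α : ℚ) : ℂ) = tA (fun β => (t β : ℂ)) γ α
    unfold tA
    rw [hB]
    push_cast
    rfl
  · intro B hB
    have h1 := hInv _ hB
    apply Matrix.map_injective (algebraMap ℚ ℂ).injective
    simp only
    rw [Matrix.map_mul, Matrix.map_mul, ← Matrix.transpose_map]
    have h2 : (B.map (fun x => (x : ℚ))).map (algebraMap ℚ ℂ) = B.map (fun x => (x : ℂ)) := by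
      ext i j
      simp
    rw [h2]
    exact h1
  · intro B hB p x hx hp
    obtain ⟨g, hg, hγ⟩ := hB
    have h1 := hfil g (H97.zc_sub F hg) p x hx (by omega)
    rw [← hγ] at h1
    exact h1

/-! ### Degree two -/

/-- the tensor of degree two with the matrix `A` -/
def e2 (A : Matrix d d ℚ) : (Fin 2 → d) → ℚ := fun β => A (β 0) (β 1)

theorem e2_val (A : Matrix d d ℚ) (x : Fin 2 → d → ℂ) :
    ∑ β, (e2 A β : ℂ) * ∏ j, x j (β j) = x 0 ⬝ᵥ (A.map (algebraMap ℚ ℂ) *ᵥ x 1) := by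
  rw [← (finTwoArrowEquiv d).symm.sum_comp, Fintype.sum_prod_type]
  simp only [dotProduct, mulVec, Finset.mul_sum]
  refine Finset.sum_congr rfl fun a _ => Finset.sum_congr rfl fun b _ => ?_
  simp only [e2, Fin.prod_univ_two, finTwoArrowEquiv_symm_apply, Matrix.cons_val_zero,
    Matrix.cons_val_one, Matrix.map_apply, eq_ratCast]
  ring

theorem e2_tA (A : Matrix d d ℚ) {u : Matrix d d ℂ}
    (h : uᵀ * A.map (algebraMap ℚ ℂ) * u = A.map (algebraMap ℚ ℂ)) :
    tA (fun β => (e2 A β : ℂ)) u = fun β => (e2 A β : ℂ) := by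
  funext α
  have h1 := congrFun (congrFun h (α 0)) (α 1)
  rw [Matrix.map_apply, eq_ratCast] at h1
  show _ = ((A (α 0) (α 1) : ℚ) : ℂ)
  rw [← h1]
  unfold tA
  rw [← (finTwoArrowEquiv d).symm.sum_comp, Fintype.sum_prod_type, Matrix.mul_apply]
  simp only [Matrix.mul_apply, Finset.sum_mul, Matrix.transpose_apply]
  rw [Finset.sum_comm]
  refine Finset.sum_congr rfl fun a _ => Finset.sum_congr rfl fun b _ => ?_
  simp only [e2, Fin.prod_univ_two, finTwoArrowEquiv_symm_apply, Matrix.cons_val_zero,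
    Matrix.cons_val_one, Matrix.map_apply, eq_ratCast]
  ring

/-- if the tensor of degree four attached to `Q` is invariant, so is `E Q` -/
theorem eq_inv (hFd : IsUnit (E.map (algebraMap ℚ ℂ)).det) {Q : Matrix d d ℚ} {u : Matrix d d ℂ}
    (hu : uᵀ * E.map (algebraMap ℚ ℂ) * u = E.map (algebraMap ℚ ℂ))
    (h : tA (fun β => (zt E Q β : ℂ)) u = fun β => (zt E Q β : ℂ)) :
    uᵀ * (E * Q).map (algebraMap ℚ ℂ) * u = (E * Q).map (algebraMap ℚ ℂ) := by
  rcases isEmpty_or_nonempty d with hd | hd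
  · exact Subsingleton.elim _ _
  obtain ⟨F, hF⟩ : ∃ F, F = E.map (algebraMap ℚ ℂ) := ⟨_, rfl⟩
  have hF0 : F ≠ 0 := by
    rintro h0
    rw [hF] at h0
    rw [h0, det_zero] at hFd
    exact not_isUnit_zero hFd
  obtain ⟨x₂, x₃, hx⟩ : ∃ x₂ x₃ : d → ℂ, x₂ ⬝ᵥ (F *ᵥ x₃) ≠ 0 := by
    by_contra hno
    push Not at hno
    exact hF0 (zero_of_dot hno)
  have e1 : (E * Q).map (algebraMap ℚ ℂ) = F * Q.map (algebraMap ℚ ℂ) := by
    rw [hF]
    exact Matrix.map_mul
  rw [e1, ← sub_eq_zero]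
  apply zero_of_dot
  intro x₀ x₁
  have h7 := tA_val (fun β => (zt E Q β : ℂ)) u ![x₀, x₁, x₂, x₃]
  rw [h, zt_val, zt_val] at h7
  simp only [Matrix.cons_val_zero, Matrix.cons_val_one, Matrix.cons_val] at h7
  rw [← hF, dot_conj, dot_conj] at h7
  rw [← hF] at hu
  rw [hu] at h7
  have h9 := mul_right_cancel₀ hx h7
  rw [sub_mulVec, dotProduct_sub, h9, sub_self]

end Pool.Agent.MT100A.H34
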