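import Pool.Agent.Helper34_MTA.Cst1
import Pool.Agent.Helper64_MTA.Trc

/-! MT100-C: the traces of the rational Hodge endomorphisms on the Hodge filtration. -/

set_option autoImplicit false
set_option linter.unusedSectionVars false

namespace Pool.Agent.MT100A.H34

open Matrix Pool.Agent.MT100 Pool.Agent.MT100G Pool.Agent.Helper78_MT Pool.Agent.MT100A.H64
  Pool.Agent.Helper46_MT Pool.Agent.MTA.H64T

variable {d : Type} [Fintype d] [DecidableEq d] {w : ℕ} {E : Matrix d d ℚ}
  {V : ℕ → Submodule ℂ (d → ℂ)} {lev : d → ℕ} {P : Matrix d d ℂ} {π : ℕ → Matrix d d ℂ}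

open Classical in
/-- a matrix which pairs to zero with the orthogonal complement preserves the subspace -/
theorem stable_of_pair {v : d → (d → ℂ)} (hv : LinearIndependent ℂ v) {Fm Q : Matrix d d ℂ}
    (hF : IsUnit Fm.det) (A B : Set d) (hcard : Nat.card A + Nat.card B = Fintype.card d)
    (h1 : ∀ a ∈ A, ∀ b ∈ B, v b ⬝ᵥ (Fm *ᵥ v a) = 0)
    (h2 : ∀ a ∈ A, ∀ b ∈ B, v b ⬝ᵥ ((Fm * Q) *ᵥ v a) = 0) :
    ∀ a ∈ A, Q.mulVec (v a) ∈ Submodule.span ℂ (v '' A) := by
  rw [Nat.card_eq_fintype_card, Nat.card_eq_fintype_card] at hcard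
  set M : Matrix B d ℂ := Matrix.of fun b => Matrix.vecMul (v b) Fm with hM
  have hrow : LinearIndependent ℂ M.row := by
    have h3 : LinearIndependent ℂ (fun b : B => v b) := hv.comp _ Subtype.val_injective
    have h4 : Function.Injective (Matrix.toLin' Fmᵀ) := by
      have h5 : Function.Injective (Fmᵀ).mulVec :=
        Matrix.mulVec_injective_iff_isUnit.2 ((isUnit_iff_isUnit_det _).2 (by rwa [det_transpose]))
      intro x y hxy
      rw [toLin'_apply, toLin'_apply] at hxy
      exact h5 hxy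
    have h6 := h3.map' (Matrix.toLin' Fmᵀ) (LinearMap.ker_eq_bot.2 h4)
    have h7 : (Matrix.toLin' Fmᵀ) ∘ (fun b : B => v b) = M.row := by
      funext b
      show Matrix.toLin' Fmᵀ (v b) = Matrix.vecMul (v b) Fm
      rw [toLin'_apply, mulVec_transpose]
    rwa [h7] at h6
  have hrank : M.rank = Fintype.card B := hrow.rank_matrix
  have hker : Module.finrank ℂ (LinearMap.ker M.mulVecLin) = Fintype.card A := by
    have h3 := LinearMap.finrank_range_add_finrank_ker M.mulVecLin
    rw [Module.finrank_fintype_fun_eq_card] at h3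
    have h4 : Module.finrank ℂ (LinearMap.range M.mulVecLin) = Fintype.card B := hrank
    omega
  have hmem : ∀ y : d → ℂ, y ∈ LinearMap.ker M.mulVecLin ↔ ∀ b ∈ B, v b ⬝ᵥ (Fm *ᵥ y) = 0 := by
    intro y
    rw [LinearMap.mem_ker, mulVecLin_apply]
    constructor
    · intro h b hb
      have h3 := congrFun h ⟨b, hb⟩
      rw [dotProduct_mulVec]
      exact h3
    · intro h
      funext b
      have h3 := h b b.2
      rw [dotProduct_mulVec] at h3
      exact h3
  have hspan : Submodule.span ℂ (v '' A) = LinearMap.ker M.mulVecLin := by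
    refine Submodule.eq_of_le_of_finrank_eq ?_ ?_
    · rw [Submodule.span_le]
      rintro _ ⟨a, ha, rfl⟩
      exact (hmem _).2 fun b hb => h1 a ha b hb
    · rw [hker, Set.image_eq_range]
      exact finrank_span_eq_card (hv.comp _ Subtype.val_injective)
  intro a ha
  rw [hspan, hmem]
  intro b hb
  rw [mulVec_mulVec]
  exact h2 a ha b hb

/-- the projector onto the step `p` of the Hodge filtration -/
noncomputable def Pup (w : ℕ) (π : ℕ → Matrix d d ℂ) (p : ℕ) : Matrix d d ℂ :=
  ∑ q ∈ Finset.range (w + 1), (if p ≤ q then (1 : ℂ) else 0) • π q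

theorem Pup_idem (hπ : Proj w E π) (p : ℕ) : Pup w π p * Pup w π p = Pup w π p := by
  unfold Pup
  rw [hπ.sum_sum]
  refine Finset.sum_congr rfl fun q _ => ?_
  congr 1
  split_ifs <;> simp

theorem Pup_range (htop : ∀ p, w < p → V p = ⊥) (hπ : Proj w E π) (h1 : ∀ p x, π p *ᵥ x ∈ V p)
    (h2 : ∀ p, ∀ x ∈ V p, π p *ᵥ x = x) (p : ℕ) :
    Set.range (Pup w π p).mulVec = ((⨆ p' ∈ Set.Ici p, V p' : Submodule ℂ (d → ℂ)) : Set (d → ℂ)) := by
  have hval : ∀ x : d → ℂ, Pup w π p *ᵥ x =
      ∑ q ∈ Finset.range (w + 1), (if p ≤ q then (1 : ℂ) else 0) • (π q *ᵥ x) := by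
    intro x
    unfold Pup
    rw [sum_mulVec]
    exact Finset.sum_congr rfl fun q _ => smul_mulVec _ _ _
  ext y
  constructor
  · rintro ⟨x, rfl⟩
    show Pup w π p *ᵥ x ∈ _
    rw [hval]
    refine Submodule.sum_mem _ fun q _ => ?_
    split_ifs with h
    · rw [one_smul]
      refine (?_ : V q ≤ _) (h1 q x)
      exact le_iSup₂_of_le q (Set.mem_Ici.2 h) (le_refl _)
    · rw [zero_smul]
      exact Submodule.zero_mem _
  · intro hy
    refine ⟨y, ?_⟩
    have hle : (⨆ p' ∈ Set.Ici p, V p' : Submodule ℂ (d → ℂ)) ≤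
        LinearMap.ker (Matrix.toLin' (Pup w π p) - LinearMap.id) := by
      refine iSup₂_le fun q hq x hx => ?_
      rw [LinearMap.mem_ker, LinearMap.sub_apply, toLin'_apply, LinearMap.id_apply, sub_eq_zero,
        hval]
      by_cases hqw : q ≤ w
      · rw [Finset.sum_eq_single q]
        · rw [if_pos (Set.mem_Ici.1 hq), one_smul, h2 q x hx]
        · intro q' hq' hne
          rw [← h2 q x hx, mulVec_mulVec,
            hπ.orth q' (Nat.lt_succ_iff.1 (Finset.mem_range.1 hq')) q hqw hne, zero_mulVec,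
            smul_zero]
        · intro h
          exact absurd (Finset.mem_range.2 (by omega)) h
      · rw [htop q (by omega), Submodule.mem_bot] at hx
        rw [hx]
        simp
    have h4 := hle hy
    rw [LinearMap.mem_ker, LinearMap.sub_apply, toLin'_apply, LinearMap.id_apply, sub_eq_zero] at h4
    exact h4

/-- the Hodge operator is the sum of the projectors onto the steps of the filtration -/
theorem phi_eq (w : ℕ) (π : ℕ → Matrix d d ℂ) :
    Phi w π = ∑ p ∈ Finset.range w, Pup w π (p + 1) := by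
  unfold Phi Pup
  rw [Finset.sum_comm]
  refine Finset.sum_congr rfl fun q hq => ?_
  have hq' := Nat.lt_succ_iff.1 (Finset.mem_range.1 hq)
  rw [← Finset.sum_smul]
  congr 1
  rw [Finset.sum_ite, Finset.sum_const_zero, add_zero, Finset.sum_const, nsmul_eq_mul, mul_one]
  congr 1
  have h1 : Finset.filter (fun p => p + 1 ≤ q) (Finset.range w) = Finset.range q := by
    ext p
    rw [Finset.mem_filter, Finset.mem_range, Finset.mem_range]
    omega
  rw [h1, Finset.card_range]

open Classical in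
/-- the trace of the projector onto a step of the filtration -/
theorem trace_Pup (hπ : Proj w E π) {v : d → (d → ℂ)} (hv : LinearIndependent ℂ v) {p : ℕ}
    (A : Set d) (hr : Set.range (Pup w π p).mulVec = (Submodule.span ℂ (v '' A) : Set (d → ℂ))) :
    (Pup w π p).trace = (Nat.card A : ℂ) := by
  rw [Nat.card_eq_fintype_card]
  have h1 := trp hv A 1 (1 : Matrix A A ℂ) (fun a => by
    rw [one_mulVec]
    simp [Matrix.one_apply]) (Pup w π p) (Pup_idem hπ p) hr
  rw [one_mul, trace_one] at h1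
  exact h1

/-- the dimensions of the steps of the filtration -/
theorem card_add (hV : PolHodge w E V) (hπ : Proj w E π) (h1 : ∀ p x, π p *ᵥ x ∈ V p)
    (h2 : ∀ p, ∀ x ∈ V p, π p *ᵥ x = x)
    {v : d → (d → ℂ)} (hv : LinearIndependent ℂ v)
    (hfil : ∀ p : ℕ, (⨆ p' ∈ Set.Ici p, V p') = Submodule.span ℂ (v '' {a | p ≤ lev a}))
    {p : ℕ} (hp : p ≤ w) :
    Nat.card {a : d | p + 1 ≤ lev a} + Nat.card {a : d | w - p ≤ lev a} = Fintype.card d := by
  have hr : ∀ p, (Pup w π p).trace = (Nat.card {a : d | p ≤ lev a} : ℂ) := fun p =>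
    trace_Pup (p := p) hπ hv {a | p ≤ lev a} (by rw [Pup_range hV.top hπ h1 h2 p, hfil p])
  have hc : ∀ q ≤ w, (π (w - q)).trace = star (π q).trace := by
    intro q hq
    rw [← hπ.conj q hq, Matrix.trace, Matrix.trace, star_sum]
    rfl
  have hsplit : ∀ p, (Pup w π p).trace =
      ∑ q ∈ Finset.range (w + 1), (if p ≤ q then (1 : ℂ) else 0) * (π q).trace := by
    intro p
    unfold Pup
    rw [trace_sum]
    exact Finset.sum_congr rfl fun q _ => by rw [trace_smul, smul_eq_mul]
  have e1 : (Pup w π (w - p)).trace = (Fintype.card d : ℂ) - star (Pup w π (p + 1)).trace := by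
    have e2 : (Fintype.card d : ℂ) = ∑ q ∈ Finset.range (w + 1), (π q).trace := by
      rw [← trace_sum, hπ.sum, trace_one]
    have e3 : (Fintype.card d : ℂ) = ∑ q ∈ Finset.range (w + 1), (π (w - q)).trace := by
      rw [e2, ← Finset.sum_range_reflect]
      refine Finset.sum_congr rfl fun q _ => ?_
      congr 2
    rw [hsplit, hsplit, star_sum, e3, ← Finset.sum_sub_distrib, ← Finset.sum_range_reflect]
    refine Finset.sum_congr rfl fun q hq => ?_
    have hq' := Nat.lt_succ_iff.1 (Finset.mem_range.1 hq)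
    have e4 : w + 1 - 1 - q = w - q := by omega
    rw [e4, star_mul', ← hc q hq']
    by_cases h : p + 1 ≤ q
    · rw [if_pos h, if_neg (by omega), star_one]
      ring
    · rw [if_neg h, if_pos (by omega), star_zero]
      ring
  rw [hr, hr] at e1
  have e5 : star ((Nat.card {a : d | p + 1 ≤ lev a} : ℕ) : ℂ) =
      ((Nat.card {a : d | p + 1 ≤ lev a} : ℕ) : ℂ) := by simp
  rw [e5] at e1
  have e6 : ((Nat.card {a : d | p + 1 ≤ lev a} + Nat.card {a : d | w - p ≤ lev a} : ℕ) : ℂ) =
      ((Fintype.card d : ℕ) : ℂ) := by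
    push_cast
    rw [e1]
    ring
  exact_mod_cast e6

end Pool.Agent.MT100A.H34
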