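import Pool.Agent.Helper34_MTA.Cst2
import Pool.Agent.Helper97_MTA.Fin

/-! MT100-C: constancy of the Mumford-Tate group outside the exceptional set. -/

set_option autoImplicit false
set_option linter.unusedSectionVars false

namespace Pool.Agent.MT100A.H34

open Matrix Pool.Agent.MT100 Pool.Agent.MT100G Pool.Agent.Helper78_MT Pool.Agent.MT100A.H64
  Pool.Agent.Helper46_MT Pool.Agent.MTA.H64T

variable {d : Type} [Fintype d] [DecidableEq d] {w : ℕ} {E E' : Matrix d d ℚ}
  {V V' : ℕ → Submodule ℂ (d → ℂ)} {lev : d → ℕ} {P : Matrix d d ℂ} {π : ℕ → Matrix d d ℂ}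

/-- the fundamental matrix is invertible and continuous on a half plane -/
theorem half (F : Sys d) : ∃ n0 : ℕ, (∀ x : ℂ, (n0 : ℝ) < x.re → IsUnit (YH F.H F.N x).det) ∧
    ∀ i j, ContinuousOn (fun x : ℂ => YH F.H F.N x i j) {x | (n0 : ℝ) < x.re} := by
  obtain ⟨R, hR, h1, -⟩ := MT100G.H43.bas d F.H F.K F.N F.q F.B F.sys
  obtain ⟨n0, hn0⟩ := exists_nat_gt R
  have h2 : ∀ x : ℂ, (n0 : ℝ) < x.re → SolOn F.q F.B x (x.re - R) (YH F.H F.N) := by
    intro x hx
    refine h1 x (x.re - R) (by linarith) ?_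
    intro y hy
    rw [Metric.mem_ball, dist_eq_norm] at hy
    have h3 := Complex.abs_re_le_norm (y - x)
    have h4 := neg_abs_le (y - x).re
    rw [Complex.sub_re] at h3 h4
    show R < y.re
    linarith
  refine ⟨n0, fun x hx => (h2 x hx).det x (Metric.mem_ball_self (by linarith)), ?_⟩
  intro i j x hx
  have hx' : (n0 : ℝ) < x.re := hx
  exact ((h2 x hx').ode x (Metric.mem_ball_self (by linarith)) i j).continuousAt.continuousWithinAt

theorem per_li (F : Sys d) (hP : IsUnit P.det) {x : ℂ} (hx : IsUnit (YH F.H F.N x).det) :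
    LinearIndependent ℂ (F.per P x) := by
  have h1 : Matrix.of (F.per P x) = YH F.H F.N x * Pᵀ := by
    ext a i
    show (P *ᵥ YH F.H F.N x a) i = _
    rw [Matrix.mul_apply]
    show ∑ j, P i j * YH F.H F.N x a j = _
    exact Finset.sum_congr rfl fun j _ => by rw [transpose_apply, mul_comm]
  have h2 : IsUnit (Matrix.of (F.per P x)) := by
    rw [isUnit_iff_isUnit_det, h1, det_mul, det_transpose]
    exact hx.mul hP
  exact Matrix.linearIndependent_rows_iff_isUnit.2 h2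

theorem per_cont (F : Sys d) {n0 : ℕ}
    (h : ∀ i j, ContinuousOn (fun x : ℂ => YH F.H F.N x i j) {x | (n0 : ℝ) < x.re}) (a : d) :
    ContinuousOn (fun x : ℂ => F.per P x a) {x | (n0 : ℝ) < x.re} := by
  refine continuousOn_pi.2 fun i => ?_
  show ContinuousOn (fun x : ℂ => ∑ j, P i j * YH F.H F.N x a j) _
  exact continuousOn_finsetSum _ fun j _ => continuousOn_const.mul (h a j)

/-- the path in the half plane -/
noncomputable def pth (x y : ℂ) (s : ℝ) : ℂ := x + ((max 0 (min 1 (s - 1)) : ℝ) : ℂ) * (y - x)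

theorem pth_cont (x y : ℂ) : Continuous (pth x y) := by
  unfold pth
  fun_prop

theorem pth_one (x y : ℂ) : pth x y 1 = x := by
  unfold pth
  simp

theorem pth_two (x y : ℂ) : pth x y 2 = y := by
  unfold pth
  norm_num

theorem pth_re {x y : ℂ} {R : ℝ} (hx : R < x.re) (hy : R < y.re) (s : ℝ) : R < (pth x y s).re := by
  unfold pth
  obtain ⟨u, hu⟩ : ∃ u, u = max 0 (min 1 (s - 1)) := ⟨_, rfl⟩
  have h0 : 0 ≤ u := by rw [hu]; exact le_max_left _ _
  have h1 : u ≤ 1 := by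
    rw [hu]
    exact max_le zero_le_one (min_le_left _ _)
  rw [← hu, Complex.add_re, Complex.re_ofReal_mul, Complex.sub_re]
  nlinarith [mul_nonneg h0 (sub_pos.2 hy).le, mul_nonneg (sub_nonneg.2 h1) (sub_pos.2 hx).le]

/-- the pairings of a morphism of Hodge structures -/
theorem pair_fil (hV : PolHodge w E V) {Q : Matrix d d ℂ} (hQ : ∀ p, ∀ x ∈ V p, Q *ᵥ x ∈ V p)
    {p q : ℕ} (hpq : w < p + q) {x y : d → ℂ} (hx : x ∈ ⨆ p' ∈ Set.Ici p, V p')
    (hy : y ∈ ⨆ p' ∈ Set.Ici q, V p') : x ⬝ᵥ (E.map (algebraMap ℚ ℂ) *ᵥ (Q *ᵥ y)) = 0 := by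
  -- a linear functional in `x`, then in `y`
  have h1 : ∀ x0 ∈ ⨆ p' ∈ Set.Ici p, V p', ∀ q' ∈ Set.Ici q, ∀ y0 ∈ V q',
      x0 ⬝ᵥ (E.map (algebraMap ℚ ℂ) *ᵥ (Q *ᵥ y0)) = 0 := by
    intro x0 hx0 q' hq' y0 hy0
    have h2 : (⨆ p' ∈ Set.Ici p, V p' : Submodule ℂ (d → ℂ)) ≤
        LinearMap.ker ((dotProductBilin ℂ ℂ).flip (E.map (algebraMap ℚ ℂ) *ᵥ (Q *ᵥ y0))) := by
      refine iSup₂_le fun p' hp' z hz => ?_
      rw [LinearMap.mem_ker]
      exact hV.orth p' q' (by
        have := Set.mem_Ici.1 hp'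
        have := Set.mem_Ici.1 hq'
        omega) z hz _ (hQ q' y0 hy0)
    exact h2 hx0
  have h3 : (⨆ p' ∈ Set.Ici q, V p' : Submodule ℂ (d → ℂ)) ≤
      LinearMap.ker ((dotProductBilin ℂ ℂ x) ∘ₗ (toLin' (E.map (algebraMap ℚ ℂ)) ∘ₗ toLin' Q)) := by
    refine iSup₂_le fun q' hq' z hz => ?_
    rw [LinearMap.mem_ker]
    exact h1 x hx q' hq' z hz
  exact h3 hy

theorem uni_iso (F : Sys d) (hInv : F.InvM P E) {u : Matrix d d ℂ} (hu : u ∈ Uni (F.Mo P)) :
    uᵀ * E.map (algebraMap ℚ ℂ) * u = E.map (algebraMap ℚ ℂ) := by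
  obtain ⟨X, -, rfl, hcl⟩ := hu
  exact H97.iso_zclosure hInv (hcl 1)

/-- an invariant bilinear Hodge tensor at one point is a Hodge tensor at all the points -/
theorem pair_all (F : Sys d) {R : ℝ} (hFP : F.FixedPart lev P w R) {A : Matrix d d ℚ}
    (hA : ∀ u ∈ Uni (F.Mo P), uᵀ * A.map (algebraMap ℚ ℂ) * u = A.map (algebraMap ℚ ℂ))
    {x y : ℂ} (hx : R < x.re) (hy : R < y.re)
    (h : ∀ a b : d, w < lev a + lev b →
      F.per P x a ⬝ᵥ (A.map (algebraMap ℚ ℂ) *ᵥ F.per P x b) = 0) :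
    ∀ a b : d, w < lev a + lev b →
      F.per P y a ⬝ᵥ (A.map (algebraMap ℚ ℂ) *ᵥ F.per P y b) = 0 := by
  intro a b hab
  have h1 : F.HodgeAt lev P w x (e2 A) := by
    intro c hc
    rw [Fin.sum_univ_two] at hc
    rw [e2_val A fun j => F.per P x (c j)]
    exact h (c 0) (c 1) (by omega)
  have h2 := hFP 2 (e2 A) (fun u hu => e2_tA A (hA u hu)) x y hx hy h1 ![a, b] (by
    rw [Fin.sum_univ_two]
    simp only [Matrix.cons_val_zero, Matrix.cons_val_one]
    omega)
  rw [e2_val A fun j => F.per P y (![a, b] j)] at h2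
  exact h2

theorem set_eq (F : Sys d) (x : ℂ) (p : ℕ) :
    {y | ∃ a : d, p ≤ lev a ∧ y = F.per P x a} = F.per P x '' {a | p ≤ lev a} := by
  ext y
  constructor
  · rintro ⟨a, ha, rfl⟩
    exact ⟨a, ha, rfl⟩
  · rintro ⟨a, ha, rfl⟩
    exact ⟨a, ha, rfl⟩

/-- the Deligne torus of the Hodge structure at `x` is contained in the Mumford-Tate group at `n` -/
theorem torus_sub (F : Sys d) (hP : IsUnit P.det) (hInt : F.IntM P) (hw : 1 ≤ w) {n0 : ℕ}
    (hdet : ∀ x : ℂ, (n0 : ℝ) < x.re → IsUnit (YH F.H F.N x).det)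
    (hcont : ∀ i j, ContinuousOn (fun x : ℂ => YH F.H F.N x i j) {x | (n0 : ℝ) < x.re})
    {R : ℝ} (hR : (n0 : ℝ) ≤ R) (hFP : F.FixedPart lev P w R) {n : ℕ}
    (hn : n ∉ S0 F lev P w) (hnR : R < n) (hF : F.Fibre lev P w n E V) {x : ℂ} (hx : R < x.re)
    (hV' : PolHodge w E' V') (hFil' : F.HasFil lev P x V') :
    hodgeTorus w V' ⊆ mtGroup w V ℂ := by
  classical
  have hF' := hF
  obtain ⟨hV, hInv, hFil⟩ := hF'
  have hnR' : R < ((n : ℂ)).re := by
    rw [Complex.natCast_re]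
    exact hnR
  refine lie2 hw hV hV' ?_ ?_
  · intro t ht
    refine hdg_of_hodgeAt F hV' hFil' ?_
    exact hFP 4 t (inv_of H20.ten H78.teu F hP hInt hw hn hF ht) n x hnR' hx
      (hodgeAt_of_hdg F hFil ht)
  · intro Q hQ hQ' hz π π' hπ hπ' h1 h1' h2 h2'
    have hFd : IsUnit (E.map (algebraMap ℚ ℂ)).det := det_map (det_ne hV)
    have hmem : ∀ (p : ℕ) (a : d), p ≤ lev a → F.per P n a ∈ ⨆ p' ∈ Set.Ici p, V p' := by
      intro p a ha
      rw [hFil p]
      exact Submodule.subset_span ⟨a, ha, rfl⟩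
    have hE : ∀ y : ℂ, R < y.re → ∀ a b : d, w < lev a + lev b →
        F.per P y a ⬝ᵥ (E.map (algebraMap ℚ ℂ) *ᵥ F.per P y b) = 0 := by
      intro y hy
      refine pair_all F hFP (fun u hu => uni_iso F hInv hu) hnR' hy fun a b hab => ?_
      have h3 := pair_fil hV (Q := 1) (fun p x hx => by rwa [one_mulVec]) hab
        (hmem (lev a) a (le_refl _)) (hmem (lev b) b (le_refl _))
      rwa [one_mulVec] at h3
    have hEQ : ∀ y : ℂ, R < y.re → ∀ a b : d, w < lev a + lev b →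
        F.per P y a ⬝ᵥ ((E * Q).map (algebraMap ℚ ℂ) *ᵥ F.per P y b) = 0 := by
      intro y hy
      refine pair_all F hFP (fun u hu => ?_) hnR' hy fun a b hab => ?_
      · exact eq_inv hFd (uni_iso F hInv hu) (inv_of H20.ten H78.teu F hP hInt hw hn hF hz u hu)
      · have h3 := pair_fil hV (Q := Q.map (algebraMap ℚ ℂ)) hQ hab
          (hmem (lev a) a (le_refl _)) (hmem (lev b) b (le_refl _))
        rw [Matrix.map_mul, ← mulVec_mulVec]
        exact h3
    have hli : ∀ y : ℂ, R < y.re → LinearIndependent ℂ (F.per P y) := fun y hy =>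
      per_li F hP (hdet y (lt_of_le_of_lt hR hy))
    -- the filtration is preserved at every point
    have hst : ∀ y : ℂ, R < y.re → ∀ p < w, ∀ a ∈ {a : d | p + 1 ≤ lev a},
        (Q.map (algebraMap ℚ ℂ)).mulVec (F.per P y a) ∈
          Submodule.span ℂ (F.per P y '' {a : d | p + 1 ≤ lev a}) := by
      intro y hy p hp
      refine stable_of_pair (hli y hy) hFd {a : d | p + 1 ≤ lev a} {a : d | w - p ≤ lev a} ?_ ?_ ?_
      · exact card_add hV hπ h1 h2 (hli n hnR') (fun p => by rw [hFil p, set_eq]) hp.le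
      · intro a ha b hb
        exact hE y hy b a (by
          have h3 : p + 1 ≤ lev a := ha
          have h4 : w - p ≤ lev b := hb
          omega)
      · intro a ha b hb
        have h3 := hEQ y hy b a (by
          have h3 : p + 1 ≤ lev a := ha
          have h4 : w - p ≤ lev b := hb
          omega)
        rw [Matrix.map_mul] at h3
        exact h3
    -- the traces
    have htr : ∀ p < w, (Q.map (algebraMap ℚ ℂ) * Pup w π (p + 1)).trace =
        (Q.map (algebraMap ℚ ℂ) * Pup w π' (p + 1)).trace := by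
      intro p hp
      obtain ⟨A, hA⟩ : ∃ A : Set d, {a : d | p + 1 ≤ lev a} = A := ⟨_, rfl⟩
      have hst' : ∀ y : ℂ, R < y.re → ∀ a ∈ A, (Q.map (algebraMap ℚ ℂ)).mulVec (F.per P y a) ∈
          Submodule.span ℂ (F.per P y '' A) := by
        intro y hy
        rw [← hA]
        exact hst y hy p hp
      obtain ⟨c, hc⟩ := trc (R := 0) (per := fun s a => F.per P (pth n x s) a) (fun a => by
          have h3 := per_cont (P := P) F hcont a
          refine h3.comp (pth_cont (n : ℂ) x).continuousOn fun s _ => ?_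
          exact lt_of_le_of_lt hR (pth_re hnR' hx s))
        (fun s _ => hli _ (pth_re hnR' hx s)) A (Q.map (algebraMap ℚ ℂ))
        (fun s _ a ha => hst' _ (pth_re hnR' hx s) a ha)
      obtain ⟨N, hN⟩ := exN A (Q.map (algebraMap ℚ ℂ)) (hst' n hnR')
      obtain ⟨N', hN'⟩ := exN A (Q.map (algebraMap ℚ ℂ)) (hst' x hx)
      have h3 := hc 1 one_pos N (by
        simp only [pth_one]
        exact hN)
      have h4 := hc 2 two_pos N' (by
        simp only [pth_two]
        exact hN')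
      have h5 := trp (hli n hnR') A _ N hN (Pup w π (p + 1))
        (Pup_idem hπ _) (by rw [Pup_range hV.top hπ h1 h2, hFil, set_eq, hA])
      have h6 := trp (hli x hx) A _ N' hN' (Pup w π' (p + 1))
        (Pup_idem hπ' _) (by rw [Pup_range hV'.top hπ' h1' h2', hFil', set_eq, hA])
      rw [h5, h6, h3, h4]
    rw [phi_eq, phi_eq, Finset.mul_sum, Finset.mul_sum, trace_sum, trace_sum]
    exact Finset.sum_congr rfl fun p hp => htr p (Finset.mem_range.1 hp)

end Pool.Agent.MT100A.H34
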