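import Pool.Agent.Helper64_MTA.Lie

/-! MT100-C: the Deligne torus of a second Hodge structure. -/

set_option autoImplicit false
set_option linter.unusedSectionVars false

namespace Pool.Agent.MT100A.H34

open MvPolynomial Matrix Module Pool.Agent.Helper78_MT Pool.Agent.Helper3_MT
  Pool.Agent.Helper46_MT Pool.Agent.MT100 Pool.Agent.MT100G.H46 Pool.Agent.MT100GO.H46
  Pool.Agent.MT100A.H64

open scoped ComplexOrder

variable {n : Type} [Fintype n] [DecidableEq n] {w : ℕ} {E : Matrix n n ℚ}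
  {π : ℕ → Matrix n n ℂ} {V : ℕ → Submodule ℂ (n → ℂ)} {I : Set (MvPolynomial (n × n) ℚ)}

/-- The rational tensor `t` of degree four is a Hodge form for `V`. -/
def Hdg (w : ℕ) (V : ℕ → Submodule ℂ (n → ℂ)) (t : (Fin 4 → n) → ℚ) : Prop :=
  ∀ (p : Fin 4 → ℕ) (x : Fin 4 → n → ℂ), (∀ j, x j ∈ V (p j)) → 2 * w ≠ ∑ j, p j →
    ∑ β, (t β : ℂ) * ∏ j, x j (β j) = 0

/-- the multilinear form -/
noncomputable def tM (t : (Fin 4 → n) → ℚ) : MultilinearMap ℂ (fun _ : Fin 4 => n → ℂ) ℂ :=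
  ∑ β : Fin 4 → n, (t β : ℂ) •
    (MultilinearMap.mkPiAlgebra ℂ (Fin 4) ℂ).compLinearMap fun j => LinearMap.proj (β j)

theorem tM_apply (t : (Fin 4 → n) → ℚ) (x : Fin 4 → n → ℂ) :
    tM t x = ∑ β, (t β : ℂ) * ∏ j, x j (β j) := by
  rw [tM, _root_.sum_apply]
  apply Finset.sum_congr rfl
  intro β _
  simp

/-- Hodge forms are multiplied by a character of the torus -/
theorem Hdg.scale {t : (Fin 4 → n) → ℚ} (ht : Hdg w V t) (h1 : ∀ p x, π p *ᵥ x ∈ V p)
    (hsum : ∑ p ∈ Finset.range (w + 1), π p = 1) (s : ℂ) (x : Fin 4 → n → ℂ) :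
    tM t (fun j => Tc w π s *ᵥ x j) = s ^ (2 * w) * tM t x := by
  classical
  have key : ∀ c : ℕ → ℂ, tM t (fun j => ∑ p ∈ Finset.range (w + 1), c p • (π p *ᵥ x j)) =
      ∑ p ∈ Fintype.piFinset fun _ : Fin 4 => Finset.range (w + 1),
        (∏ j, c (p j)) * tM t (fun j => π (p j) *ᵥ x j) := by
    intro c
    rw [MultilinearMap.map_sum_finset]
    apply Finset.sum_congr rfl
    intro p _
    rw [MultilinearMap.map_smul_univ, smul_eq_mul]
  have e1 : (fun j => Tc w π s *ᵥ x j) =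
      fun j => ∑ p ∈ Finset.range (w + 1), s ^ p • (π p *ᵥ x j) := by
    funext j
    unfold Tc
    rw [sum_mulVec]
    exact Finset.sum_congr rfl fun p _ => smul_mulVec _ _ _
  have e2 : x = fun j => ∑ p ∈ Finset.range (w + 1), (1 : ℂ) • (π p *ᵥ x j) := by
    funext j
    simp only [one_smul]
    rw [← sum_mulVec, hsum, one_mulVec]
  rw [e1]
  conv_rhs => rw [e2]
  rw [key (fun p => s ^ p), key (fun _ => 1), Finset.mul_sum]
  apply Finset.sum_congr rfl
  intro p _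
  by_cases hp : 2 * w = ∑ j, p j
  · simp only [Finset.prod_const_one, one_mul, Finset.prod_pow_eq_pow_sum, hp]
  · rw [tM_apply, ht p _ (fun j => h1 _ _) hp, mul_zero, mul_zero, mul_zero]

end Pool.Agent.MT100A.H34
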