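import Pool.Agent.Helper34_MTA.Hdg

/-! MT100-C, module LIE2: if the Hodge forms of degree four of `V` are Hodge forms for `V'` and the
rational endomorphisms of both have the same Hodge traces, then the Deligne torus of `V'` is contained
in the Mumford-Tate group of `V`. -/

set_option autoImplicit false
set_option linter.unusedSectionVars false

namespace Pool.Agent.MT100A.H34

open MvPolynomial Matrix Module Pool.Agent.Helper78_MT Pool.Agent.Helper3_MT
  Pool.Agent.Helper46_MT Pool.Agent.MT100 Pool.Agent.MT100G.H46 Pool.Agent.MT100GO.H46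
  Pool.Agent.MT100A.H64

open scoped ComplexOrder

variable {n : Type} [Fintype n] [DecidableEq n] {w : ℕ} {E E' : Matrix n n ℚ}
  {π π' : ℕ → Matrix n n ℂ} {V V' : ℕ → Submodule ℂ (n → ℂ)} {I : Set (MvPolynomial (n × n) ℚ)}

/-- the polarisation of `V` is a Hodge form for `V'` -/
theorem proj_pair (hEE : Hdg w V' (zt E 1)) (hπ' : Proj w E' π')
    (h1' : ∀ p x, π' p *ᵥ x ∈ V' p) : Proj w E π' := by
  refine ⟨hπ'.idem, hπ'.orth, hπ'.sum, hπ'.conj, fun p hp q hq hpq => ?_⟩
  apply zero_of_dot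
  intro x y
  have h2 := hEE ![p, q, p, q] ![π' p *ᵥ x, π' q *ᵥ y, π' p *ᵥ x, π' q *ᵥ y] (fun j => by
    fin_cases j <;> exact h1' _ _) (by
    rw [Fin.sum_univ_four]
    simp only [Matrix.cons_val_zero, Matrix.cons_val_one, Matrix.cons_val]
    omega)
  rw [zt_val] at h2
  simp only [Matrix.cons_val_zero, Matrix.cons_val_one, Matrix.cons_val,
    Matrix.map_one _ (map_zero (algebraMap ℚ ℂ)) (map_one (algebraMap ℚ ℂ)), mul_one] at h2
  have h3 := mul_self_eq_zero.1 h2
  rw [mulVec_mulVec, ← vecMul_transpose (π' p) x, ← dotProduct_mulVec, mulVec_mulVec,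
    ← mul_assoc] at h3
  exact h3

/-- the torus of `V'` normalises the Lie algebra -/
theorem torus_stab {d : ℕ} {Y : Fin d → Matrix n n ℚ} {c : Fin d → ℚ} (hob : OB I E Y c)
    (hFd : IsUnit (E.map (algebraMap ℚ ℂ)).det) (hπ : Proj w E π')
    (h1' : ∀ p x, π' p *ᵥ x ∈ V' p) (ht : Hdg w V' (tt E Y c)) {t : ℂ} (ht0 : t ≠ 0)
    {Z : Matrix n n ℂ} (hZ : Z ∈ Ul I E) : Tc w π' t * Z * Tc w π' t⁻¹ ∈ Ul I E := by
  obtain ⟨s, hs⟩ : ∃ s : ℂ, s * s = t⁻¹ := IsAlgClosed.exists_pow_nat_eq t⁻¹ (n := 2) two_pos |>.imp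
    fun s hs => by rw [← hs, sq]
  have hs0 : s ≠ 0 := by
    rintro rfl
    rw [zero_mul] at hs
    exact inv_ne_zero ht0 hs.symm
  have hsw : s ^ w ≠ 0 := pow_ne_zero _ hs0
  have hT1 := hπ.Tc_inv ht0
  have hT2 : Tc w π' t⁻¹ * Tc w π' t = 1 := by rw [hπ.Tc_mul, inv_mul_cancel₀ ht0, hπ.Tc_one]
  have key := hob.stable hFd (g := (s ^ w)⁻¹ • Tc w π' t⁻¹) (g' := s ^ w • Tc w π' t)
    (by rw [smul_mul_smul_comm, inv_mul_cancel₀ hsw, one_smul, hT2])
    (by
      rw [transpose_smul, smul_mul_assoc, smul_mul_smul_comm, hπ.T_sim, smul_smul, ← hs, mul_pow]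
      have : (s ^ w)⁻¹ * (s ^ w)⁻¹ * (s ^ w * s ^ w) = 1 := by field_simp
      rw [this, one_smul])
    (fun x => by
      have h2 := ht.scale h1' hπ.sum t⁻¹ x
      rw [tM_apply, tM_apply, tt_val, tt_val] at h2
      have h3 : (fun j => ((s ^ w)⁻¹ • Tc w π' t⁻¹) *ᵥ x j) =
          fun j => (fun _ : Fin 4 => (s ^ w)⁻¹) j • (Tc w π' t⁻¹ *ᵥ x j) := by
        funext j
        rw [smul_mulVec]
      rw [h3, ← tvM_apply, MultilinearMap.map_smul_univ, tvM_apply, h2, smul_eq_mul, ← hs,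
        Fin.prod_const, ← mul_assoc]
      have h4 : ((s ^ w)⁻¹) ^ 4 * (s * s) ^ (2 * w) = 1 := by
        rw [← sq, ← pow_mul, inv_pow, ← pow_mul]
        have : w * 4 = 2 * (2 * w) := by ring
        rw [this, inv_mul_cancel₀ (pow_ne_zero _ hs0)]
      rw [h4, one_mul]) hZ
  rw [smul_mul_assoc, smul_mul_assoc, mul_smul_comm, smul_smul, mul_inv_cancel₀ hsw, one_smul]
    at key
  exact key

/-- the Hodge operator of `V'` normalises the Lie algebra -/
theorem phi_stab (hπ : Proj w E π') {U : Submodule ℂ (Matrix n n ℂ)} {Z : Matrix n n ℂ}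
    (h : ∀ t : ℂ, t ≠ 0 → Tc w π' t * Z * Tc w π' t⁻¹ ∈ U) :
    Phi w π' * Z - Z * Phi w π' ∈ U := by
  by_contra hnot
  obtain ⟨f, hf, hle⟩ := Submodule.exists_le_ker_of_notMem hnot
  obtain ⟨P, hP⟩ : ∃ P : Polynomial ℂ, P = ∑ p ∈ Finset.range (w + 1), ∑ q ∈ Finset.range (w + 1),
      Polynomial.C (f (π' p * Z * π' q)) * Polynomial.X ^ (p + (w - q)) := ⟨_, rfl⟩
  have h1 : P = 0 := by
    rw [hP]
    apply poly_zero_of_eval
    intro t ht
    have h2 : f (Tc w π' t * Z * Tc w π' t⁻¹) = 0 := hle (h t ht)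
    unfold Tc at h2
    rw [Finset.sum_mul, Finset.sum_mul, map_sum] at h2
    have h3 := congrArg (fun x => t ^ w * x) h2
    simp only [mul_zero] at h3
    rw [← h3, Finset.mul_sum, Polynomial.eval_finsetSum]
    apply Finset.sum_congr rfl
    intro p _
    rw [Finset.mul_sum, map_sum, Finset.mul_sum, Polynomial.eval_finsetSum]
    apply Finset.sum_congr rfl
    intro q hq
    have hq' := Nat.lt_succ_iff.1 (Finset.mem_range.1 hq)
    rw [Polynomial.eval_mul, Polynomial.eval_C, Polynomial.eval_pow, Polynomial.eval_X,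
      smul_mul_assoc, smul_mul_smul_comm, map_smul, smul_eq_mul]
    have h4 : t ^ w * (t⁻¹) ^ q = t ^ (w - q) := by
      rw [inv_pow, ← div_eq_mul_inv, div_eq_iff (pow_ne_zero _ ht), ← pow_add,
        Nat.sub_add_cancel hq']
    rw [pow_add, ← h4]
    ring
  have h2 : ∑ p ∈ Finset.range (w + 1), ∑ q ∈ Finset.range (w + 1), f (π' p * Z * π' q) = 0 := by
    have := congrArg (Polynomial.eval 1) h1
    rw [hP, Polynomial.eval_zero, Polynomial.eval_finsetSum] at this
    rw [← this]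
    refine Finset.sum_congr rfl fun p _ => ?_
    rw [Polynomial.eval_finsetSum]
    refine Finset.sum_congr rfl fun q _ => ?_
    simp
  have h3 : ∑ p ∈ Finset.range (w + 1), ∑ q ∈ Finset.range (w + 1),
      ((p + (w - q) : ℕ) : ℂ) * f (π' p * Z * π' q) = 0 := by
    have := congrArg (fun Q : Polynomial ℂ => Q.derivative.eval 1) h1
    simp only [hP, Polynomial.derivative_zero, Polynomial.eval_zero, Polynomial.derivative_sum,
      Polynomial.eval_finsetSum] at this
    rw [← this]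
    refine Finset.sum_congr rfl fun p _ => Finset.sum_congr rfl fun q _ => ?_
    rw [Polynomial.derivative_C_mul, Polynomial.derivative_X_pow]
    simp only [Polynomial.eval_mul, Polynomial.eval_C, Polynomial.eval_pow, Polynomial.eval_X,
      one_pow, mul_one]
    ring
  apply hf
  have h4 : Phi w π' * Z - Z * Phi w π' = ∑ p ∈ Finset.range (w + 1),
      ∑ q ∈ Finset.range (w + 1), ((p : ℂ) - q) • (π' p * Z * π' q) := by
    have e1 : Phi w π' * Z = ∑ p ∈ Finset.range (w + 1), ∑ q ∈ Finset.range (w + 1),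
        (p : ℂ) • (π' p * Z * π' q) := by
      conv_lhs => rw [← mul_one (Phi w π' * Z), ← hπ.sum]
      unfold Phi
      rw [Finset.sum_mul, Finset.sum_mul]
      refine Finset.sum_congr rfl fun p _ => ?_
      rw [Finset.mul_sum]
      refine Finset.sum_congr rfl fun q _ => ?_
      rw [smul_mul_assoc, smul_mul_assoc]
    have e2 : Z * Phi w π' = ∑ p ∈ Finset.range (w + 1), ∑ q ∈ Finset.range (w + 1),
        (q : ℂ) • (π' p * Z * π' q) := by
      conv_lhs => rw [← one_mul (Z * Phi w π'), ← hπ.sum]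
      unfold Phi
      rw [Finset.sum_mul]
      refine Finset.sum_congr rfl fun p _ => ?_
      rw [Finset.mul_sum, Finset.mul_sum]
      refine Finset.sum_congr rfl fun q _ => ?_
      rw [mul_smul_comm, mul_smul_comm, mul_assoc]
    rw [e1, e2, ← Finset.sum_sub_distrib]
    refine Finset.sum_congr rfl fun p _ => ?_
    rw [← Finset.sum_sub_distrib]
    exact Finset.sum_congr rfl fun q _ => (sub_smul _ _ _).symm
  rw [h4, map_sum]
  have h5 : ∀ p ∈ Finset.range (w + 1), f (∑ q ∈ Finset.range (w + 1),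
      ((p : ℂ) - q) • (π' p * Z * π' q)) = ∑ q ∈ Finset.range (w + 1),
      (((p + (w - q) : ℕ) : ℂ) * f (π' p * Z * π' q) - (w : ℂ) * f (π' p * Z * π' q)) := by
    intro p _
    rw [map_sum]
    refine Finset.sum_congr rfl fun q hq => ?_
    have hq' := Nat.lt_succ_iff.1 (Finset.mem_range.1 hq)
    rw [map_smul, smul_eq_mul, Nat.cast_add, Nat.cast_sub hq']
    ring
  rw [Finset.sum_congr rfl h5]
  simp only [Finset.sum_sub_distrib]
  rw [h3, zero_sub]
  simp only [← Finset.mul_sum]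
  rw [h2, mul_zero, neg_zero]

/-- rational endomorphisms which are Hodge for `V'` commute with the projectors -/
theorem rat_comm (hFd : IsUnit (E.map (algebraMap ℚ ℂ)).det) (hπ : Proj w E π')
    (h1' : ∀ p x, π' p *ᵥ x ∈ V' p) {Q : Matrix n n ℚ} (hQ : Hdg w V' (zt E Q)) {p : ℕ}
    (hp : p ≤ w) : π' p * Q.map (algebraMap ℚ ℂ) = Q.map (algebraMap ℚ ℂ) * π' p := by
  obtain ⟨F, hF⟩ : ∃ F, F = E.map (algebraMap ℚ ℂ) := ⟨_, rfl⟩
  obtain ⟨q, hq⟩ : ∃ q, q = Q.map (algebraMap ℚ ℂ) := ⟨_, rfl⟩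
  rw [← hq]
  rcases isEmpty_or_nonempty n with hn | hn
  · exact Subsingleton.elim _ _
  -- a nonzero value of the form
  have hval : ∃ r ≤ w, (π' r)ᵀ * F * π' (w - r) ≠ 0 := by
    by_contra hno
    push Not at hno
    have h2 := hπ.form_one
    rw [← hF, Finset.sum_eq_zero (fun r hr => hno r (Nat.lt_succ_iff.1 (Finset.mem_range.1 hr)))]
      at h2
    rw [← hF, h2, det_zero] at hFd
    exact not_isUnit_zero hFd
  obtain ⟨r, hr, hr0⟩ := hval
  obtain ⟨x₂, x₃, hx⟩ : ∃ x₂ x₃ : n → ℂ, x₂ ⬝ᵥ (((π' r)ᵀ * F * π' (w - r)) *ᵥ x₃) ≠ 0 := by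
    by_contra hno
    push Not at hno
    exact hr0 (zero_of_dot hno)
  have hx' : (π' r *ᵥ x₂) ⬝ᵥ (F *ᵥ (π' (w - r) *ᵥ x₃)) ≠ 0 := by
    rw [mulVec_mulVec, ← vecMul_transpose (π' r) x₂, ← dotProduct_mulVec, mulVec_mulVec,
      ← mul_assoc]
    exact hx
  have hz : ∀ a ≤ w, ∀ b ≤ w, a + b ≠ w → (π' a)ᵀ * (F * q) * π' b = 0 := by
    intro a ha b hb hab
    apply zero_of_dot
    intro x y
    have h2 := hQ ![a, b, r, w - r] ![π' a *ᵥ x, π' b *ᵥ y, π' r *ᵥ x₂, π' (w - r) *ᵥ x₃]
      (fun j => by fin_cases j <;> exact h1' _ _) (by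
      rw [Fin.sum_univ_four]
      simp only [Matrix.cons_val_zero, Matrix.cons_val_one, Matrix.cons_val]
      omega)
    rw [zt_val] at h2
    simp only [Matrix.cons_val_zero, Matrix.cons_val_one, Matrix.cons_val] at h2
    rw [← hF, ← hq] at h2
    have h3 := (mul_eq_zero.1 h2).resolve_right hx'
    rw [mulVec_mulVec, ← vecMul_transpose (π' a) x, ← dotProduct_mulVec, mulVec_mulVec,
      ← mul_assoc, ← mul_assoc] at h3
    rw [← mul_assoc]
    exact h3
  have hFi : F⁻¹ * F = 1 := nonsing_inv_mul F (by rw [hF]; exact hFd)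
  -- `F π'_r` is the transpose of `π'_(w-r)` times `F`
  have hFp : ∀ a ≤ w, F * π' a = (π' (w - a))ᵀ * F := by
    intro a ha
    have e1 : F * π' a = (π' (w - a))ᵀ * F * π' a := by
      have h2 := hπ.form (fun _ => 1) (fun b => if b = a then 1 else 0)
      simp only [one_smul, ite_smul, zero_smul, one_mul] at h2
      rw [hπ.sum, transpose_one, one_mul, Finset.sum_ite_eq' (Finset.range (w + 1)) a,
        if_pos (Finset.mem_range.2 (by omega)), Finset.sum_eq_single (w - a)] at h2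
      · rw [if_pos (by omega)] at h2
        rw [← hF] at h2
        rw [h2]
        congr 2
        omega
      · intro b hb hne
        have hb' := Nat.lt_succ_iff.1 (Finset.mem_range.1 hb)
        rw [if_neg (by omega)]
      · intro hb
        exact absurd (Finset.mem_range.2 (by omega)) hb
    have e2 : (π' (w - a))ᵀ * F = (π' (w - a))ᵀ * F * π' a := by
      have h2 := hπ.form (fun b => if b = w - a then 1 else 0) (fun _ => 1)
      simp only [one_smul, ite_smul, zero_smul, mul_one] at h2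
      rw [hπ.sum, mul_one, Finset.sum_ite_eq' (Finset.range (w + 1)) (w - a),
        if_pos (Finset.mem_range.2 (by omega)), Finset.sum_ite_eq' (Finset.range (w + 1)) (w - a),
        if_pos (Finset.mem_range.2 (by omega)), ← hF] at h2
      rw [h2]
      congr 2
      omega
    rw [e1, ← e2]
  have hcr : ∀ a ≤ w, ∀ b ≤ w, a ≠ b → π' a * q * π' b = 0 := by
    intro a ha b hb hab
    have h2 : F * (π' a * q * π' b) = 0 := by
      rw [← mul_assoc, ← mul_assoc, hFp a ha, mul_assoc ((π' (w - a))ᵀ)]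
      exact hz (w - a) (by omega) b hb (by omega)
    calc π' a * q * π' b = F⁻¹ * (F * (π' a * q * π' b)) := by rw [← mul_assoc, hFi, one_mul]
      _ = 0 := by rw [h2, mul_zero]
  have e1 : π' p * q = π' p * q * π' p := by
    conv_lhs => rw [← mul_one (π' p * q), ← hπ.sum]
    rw [Finset.mul_sum, Finset.sum_eq_single p]
    · intro b hb hne
      exact hcr p hp b (Nat.lt_succ_iff.1 (Finset.mem_range.1 hb)) (Ne.symm hne)
    · intro hb
      exact absurd (Finset.mem_range.2 (by omega)) hb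
  have e2 : q * π' p = π' p * q * π' p := by
    conv_lhs => rw [← one_mul (q * π' p), ← hπ.sum]
    rw [Finset.sum_mul, Finset.sum_eq_single p]
    · rw [mul_assoc]
    · intro b hb hne
      rw [← mul_assoc]
      exact hcr b (Nat.lt_succ_iff.1 (Finset.mem_range.1 hb)) p hp hne
    · intro hb
      exact absurd (Finset.mem_range.2 (by omega)) hb
  rw [e1, e2]

end Pool.Agent.MT100A.H34
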