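import Pool.Agent.Helper34_MTA.Lie2

/-! MT100-C, module LIE2, second part. -/

set_option autoImplicit false
set_option linter.unusedSectionVars false

namespace Pool.Agent.MT100A.H34

open MvPolynomial Matrix Module Pool.Agent.Helper78_MT Pool.Agent.Helper3_MT
  Pool.Agent.Helper46_MT Pool.Agent.MT100 Pool.Agent.MT100G.H46 Pool.Agent.MT100GO.H46
  Pool.Agent.MT100A.H64

open scoped ComplexOrder

variable {n : Type} [Fintype n] [DecidableEq n] {w : ℕ} {E E' : Matrix n n ℚ}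
  {π π' : ℕ → Matrix n n ℂ} {V V' : ℕ → Submodule ℂ (n → ℂ)} {I : Set (MvPolynomial (n × n) ℚ)}

/-- a polynomial all of whose iterated Euler derivatives vanish at one is zero -/
theorem euler_zero {f : Polynomial ℂ} {g : ℕ → Polynomial ℂ} (h0 : g 0 = f)
    (h1 : ∀ k, g (k + 1) = Polynomial.X * Polynomial.derivative (g k))
    (h2 : ∀ k, (g k).eval 1 = 0) : f = 0 := by
  -- the coefficients of the iterated derivatives
  have h3 : ∀ k m, (g k).coeff m = (m : ℂ) ^ k * f.coeff m := by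
    intro k
    induction k with
    | zero => intro m; rw [h0, pow_zero, one_mul]
    | succ k ih =>
      intro m
      rw [h1]
      rcases m with _ | m
      · rw [Polynomial.mul_coeff_zero, Polynomial.coeff_X_zero, zero_mul, Nat.cast_zero,
          zero_pow (Nat.succ_ne_zero k), zero_mul]
      · rw [mul_comm, Polynomial.coeff_mul_X, Polynomial.coeff_derivative, ih]
        push_cast
        ring
  have hdeg : ∀ k, (g k).support ⊆ f.support := by
    intro k m hm
    rw [Polynomial.mem_support_iff, h3] at hm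
    rw [Polynomial.mem_support_iff]
    intro h
    rw [h, mul_zero] at hm
    exact hm rfl
  have h4 : ∀ k, ∑ m ∈ f.support, (m : ℂ) ^ k * f.coeff m = 0 := by
    intro k
    rw [← h2 k, Polynomial.eval_eq_sum, Polynomial.sum_def]
    rw [Finset.sum_subset (hdeg k)]
    · refine Finset.sum_congr rfl fun m _ => ?_
      rw [one_pow, mul_one, h3]
    · intro m _ hm
      rw [Polynomial.notMem_support_iff.1 hm, zero_mul]
  have h5 : ∀ P : Polynomial ℂ, ∑ m ∈ f.support, P.eval (m : ℂ) * f.coeff m = 0 := by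
    intro P
    simp only [Polynomial.eval_eq_sum, Polynomial.sum_def, Finset.sum_mul]
    rw [Finset.sum_comm]
    refine Finset.sum_eq_zero fun k _ => ?_
    have h6 := h4 k
    calc ∑ m ∈ f.support, P.coeff k * (m : ℂ) ^ k * f.coeff m
        = P.coeff k * ∑ m ∈ f.support, (m : ℂ) ^ k * f.coeff m := by
          rw [Finset.mul_sum]
          exact Finset.sum_congr rfl fun m _ => mul_assoc _ _ _
      _ = 0 := by rw [h6, mul_zero]
  by_contra hf
  obtain ⟨m0, hm0⟩ := Polynomial.support_nonempty.2 hf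
  have h6 := h5 (∏ m ∈ f.support.erase m0, (Polynomial.X - Polynomial.C (m : ℂ)))
  rw [Finset.sum_eq_single m0] at h6
  · have h7 : (∏ m ∈ f.support.erase m0, (Polynomial.X - Polynomial.C (m : ℂ))).eval (m0 : ℂ) ≠ 0 := by
      rw [Polynomial.eval_prod, Finset.prod_ne_zero_iff]
      intro m hm
      rw [Polynomial.eval_sub, Polynomial.eval_X, Polynomial.eval_C, sub_ne_zero]
      intro h
      exact (Finset.mem_erase.1 hm).1 (by exact_mod_cast h.symm)
    exact (mul_ne_zero h7 (Polynomial.mem_support_iff.1 hm0)) h6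
  · intro m hm hne
    rw [Polynomial.eval_prod, Finset.prod_eq_zero (Finset.mem_erase.2 ⟨hne, hm⟩), zero_mul]
    simp
  · intro h
    exact absurd hm0 h

/-- if the Hodge operator is in the Lie algebra, the complex torus is in the group -/
theorem torus_of_phi (hπ : Proj w E π') (hG : IsAlgSubgroup I)
    (hPhi : Phi w π' ∈ lieOf (zeros I ℂ)) {t : ℂ} (ht : t ≠ 0) : Tc w π' t ∈ zeros I ℂ := by
  refine ⟨hπ.Tc_unit ht, fun p hp => ?_⟩
  have h1 : ∀ i j, (Polynomial.X : Polynomial ℂ) * Polynomial.derivative (pc w π' i j) =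
      ∑ k, Phi w π' k j • pc w π' i k := by
    intro i j
    rw [pc_deriv, pc_sum]
    unfold pc
    refine Finset.sum_congr rfl fun p hp => ?_
    have hp' := Nat.lt_succ_iff.1 (Finset.mem_range.1 hp)
    have h2 : π' p * Phi w π' = (p : ℂ) • π' p := by
      unfold Phi
      exact hπ.sum_mul (fun p => (p : ℂ)) hp'
    change Polynomial.C (((p : ℂ) • π' p) i j) * Polynomial.X ^ p =
      Polynomial.C ((π' p * Phi w π') i j) * Polynomial.X ^ p
    rw [h2]
  have hvan : ∀ g ∈ zeros I ℂ, pev g (MvPolynomial.map (algebraMap ℚ ℂ) p) = 0 := by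
    intro g hg
    rw [pevC]
    exact hg.2 p hp
  have h2 : cev (pc w π') (MvPolynomial.map (algebraMap ℚ ℂ) p) = 0 := by
    refine euler_zero (g := fun k => cev (pc w π') ((dr (Phi w π'))^[k]
      (MvPolynomial.map (algebraMap ℚ ℂ) p))) rfl (fun k => ?_) (fun k => ?_)
    · rw [Function.iterate_succ_apply', cev_deriv h1]
    · have h3 : ∀ k, ∀ g ∈ zeros I ℂ, pev g ((dr (Phi w π'))^[k]
          (MvPolynomial.map (algebraMap ℚ ℂ) p)) = 0 := by
        intro k
        induction k with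
        | zero => exact hvan
        | succ k ih =>
          rw [Function.iterate_succ_apply']
          exact hPhi _ ih
      rw [cev_eval, pc_eval, hπ.Tc_one]
      exact h3 k _ hG.1
  rw [← pevC, ← pc_eval, ← cev_eval, h2, Polynomial.eval_zero]

/-- an element of the torus of `V'` -/
theorem torus_eq (hV' : PolHodge w E' V') (hπ : Proj w E π')
    (h2' : ∀ p, ∀ x ∈ V' p, π' p *ᵥ x = x) {T : Matrix n n ℂ} (hT : T ∈ hodgeTorus w V') :
    ∃ z : ℂ, z ≠ 0 ∧ T = hz w π' z := by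
  obtain ⟨z, hz0, hz⟩ := hT
  refine ⟨z, hz0, ?_⟩
  refine ind hV'.span hV'.top fun p hp x hx => ?_
  rw [hz p hp x hx]
  unfold Pool.Agent.Helper46_MT.hz
  conv_rhs => rw [← h2' p x hx]
  rw [mulVec_mulVec, hπ.mul_sum (fun p => z ^ p * (starRingEnd ℂ z) ^ (w - p)) hp, smul_mulVec,
    h2' p x hx]
  rfl

/-- **LIE2** -/
theorem lie2 (hw : 1 ≤ w) (hV : PolHodge w E V) (hV' : PolHodge w E' V')
    (hT : ∀ t : (Fin 4 → n) → ℚ, Hdg w V t → Hdg w V' t)
    (hQ : ∀ Q : Matrix n n ℚ, (∀ p, ∀ x ∈ V p, Q.map (algebraMap ℚ ℂ) *ᵥ x ∈ V p) →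
      (∀ p, ∀ x ∈ V' p, Q.map (algebraMap ℚ ℂ) *ᵥ x ∈ V' p) → Hdg w V (zt E Q) →
      ∀ π π' : ℕ → Matrix n n ℂ, Proj w E π → Proj w E π' → (∀ p x, π p *ᵥ x ∈ V p) →
      (∀ p x, π' p *ᵥ x ∈ V' p) → (∀ p, ∀ x ∈ V p, π p *ᵥ x = x) →
      (∀ p, ∀ x ∈ V' p, π' p *ᵥ x = x) →
      (Q.map (algebraMap ℚ ℂ) * Phi w π).trace = (Q.map (algebraMap ℚ ℂ) * Phi w π').trace) :
    hodgeTorus w V' ⊆ mtGroup w V ℂ := by
  intro T hTV I hG hI
  obtain ⟨π, hπ, h1, h2, h3⟩ := proj_of hV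
  obtain ⟨π', hπ'0, h1', h2', h3'⟩ := proj_of hV'
  have hE := det_ne hV
  have hFd := det_map hE
  have hI' : ∀ z : ℂ, z ≠ 0 → hz w π z ∈ zeros I ℂ := fun z hz0 => hI _ (hz_torus hπ h2 hz0)
  have nd : ∀ X ∈ Ul I E, (∀ Y ∈ Ul I E, (X * Y).trace = 0) → X = 0 := by
    intro X hX hX0
    rcases Nat.even_or_odd w with he | ho
    · exact trace_nd_even hV he hw hπ h1 hG hI' hX hX0
    · exact trace_nd hV ho hπ h1 hG hI' hX hX0
  obtain ⟨d, Y, c, hc1, hc2, hc3, hc4⟩ := exists_orth (I := I) (E := E) nd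
  have hob : OB I E Y c := ⟨hc1, hc2, hc3, hc4⟩
  -- Hodge forms of `V`
  have hztH : ∀ Q : Matrix n n ℚ, (∀ p, ∀ x ∈ V p, Q.map (algebraMap ℚ ℂ) *ᵥ x ∈ V p) →
      Hdg w V (zt E Q) := by
    intro Q hQp p x hx hp
    rw [zt_val]
    by_cases h01 : p 0 + p 1 = w
    · have h23 : p 2 + p 3 ≠ w := by
        intro h23
        apply hp
        rw [Fin.sum_univ_four]
        omega
      rw [hV.orth _ _ h23 _ (hx 2) _ (hx 3), mul_zero]
    · rw [← mulVec_mulVec, hV.orth _ _ h01 _ (hx 0) _ (hQp _ _ (hx 1)), zero_mul]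
  have hEE : Hdg w V' (zt E 1) := by
    refine hT _ (hztH 1 fun p x hx => ?_)
    rw [Matrix.map_one _ (map_zero _) (map_one _), one_mulVec]
    exact hx
  have hπ' : Proj w E π' := proj_pair hEE hπ'0 h1'
  have httH : Hdg w V (tt E Y c) := by
    intro p x hx hp
    rw [tt_val]
    exact hob.hodge hπ hw hG hI' h2 hV.top hx (Ne.symm hp)
  have htt' := hT _ httH
  -- the operator of the second structure
  obtain ⟨X, hX⟩ : ∃ X, X = Phi' w π' := ⟨_, rfl⟩
  have hXs : Xᵀ * E.map (algebraMap ℚ ℂ) + E.map (algebraMap ℚ ℂ) * X = 0 := by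
    have h4 := hπ'.form (fun p => (p : ℂ)) (fun _ => 1)
    have h5 := hπ'.form (fun _ => 1) (fun p => (p : ℂ))
    simp only [one_smul, mul_one, one_mul] at h4 h5
    rw [hπ'.sum] at h4 h5
    rw [mul_one] at h4
    rw [transpose_one, one_mul] at h5
    have h6 : (Phi w π')ᵀ * E.map (algebraMap ℚ ℂ) + E.map (algebraMap ℚ ℂ) * Phi w π' =
        (w : ℂ) • E.map (algebraMap ℚ ℂ) := by
      unfold Phi
      rw [h4, h5, ← Finset.sum_add_distrib]
      conv_rhs => rw [hπ'.form_one, Finset.smul_sum]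
      apply Finset.sum_congr rfl
      intro p hp
      have hp' := Nat.lt_succ_iff.1 (Finset.mem_range.1 hp)
      rw [← add_smul]
      congr 1
      rw [Nat.cast_sub hp']
      ring
    rw [hX]
    unfold Phi'
    rw [transpose_sub, transpose_smul, transpose_one, sub_mul, mul_sub, smul_mul_assoc,
      mul_smul_comm, one_mul, mul_one]
    have h7 : (Phi w π')ᵀ * E.map (algebraMap ℚ ℂ) - ((w : ℂ) / 2) • E.map (algebraMap ℚ ℂ) +
        (E.map (algebraMap ℚ ℂ) * Phi w π' - ((w : ℂ) / 2) • E.map (algebraMap ℚ ℂ)) =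
        ((Phi w π')ᵀ * E.map (algebraMap ℚ ℂ) + E.map (algebraMap ℚ ℂ) * Phi w π') -
        (w : ℂ) • E.map (algebraMap ℚ ℂ) := by
      module
    rw [h7, h6, sub_self]
  have hcom : ∀ Z : Matrix n n ℂ, X * Z - Z * X = Phi w π' * Z - Z * Phi w π' := by
    intro Z
    rw [hX]
    unfold Phi'
    rw [sub_mul, mul_sub, smul_mul_assoc, mul_smul_comm, one_mul, mul_one]
    abel
  -- the Lie algebra is stable
  have hst : ∀ Z ∈ Ul I E, X * Z - Z * X ∈ Ul I E := by
    intro Z hZ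
    rw [hcom]
    exact phi_stab hπ' fun t ht => torus_stab hob hFd hπ' h1' htt' ht hZ
  -- rational elements of the centralizer
  have hrat : ∀ Q : Matrix n n ℚ, Q.map (algebraMap ℚ ℂ) ∈ Zz I E →
      (∀ p, ∀ x ∈ V p, Q.map (algebraMap ℚ ℂ) *ᵥ x ∈ V p) ∧
      ∀ p ≤ w, π' p * Q.map (algebraMap ℚ ℂ) = Q.map (algebraMap ℚ ℂ) * π' p := by
    intro Q hQz
    have h4 : ∀ p, ∀ x ∈ V p, Q.map (algebraMap ℚ ℂ) *ᵥ x ∈ V p := fun p x hx =>
      piece hπ hw hG hI' hQz hV h1 h2 hx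
    exact ⟨h4, fun p hp => rat_comm hFd hπ' h1' (hT _ (hztH Q h4)) hp⟩
  have hcz : ∀ z ∈ Zz I E, X * z = z * X := by
    intro z hz
    have hdes := desc (Zz I E) (fun τ X hX => Zz_aut τ hX) hz
    clear hz
    induction hdes using Submodule.span_induction with
    | mem z hz =>
      obtain ⟨Q, rfl, hQ'⟩ := hz
      have h4 := (hrat Q hQ').2
      rw [← sub_eq_zero, hcom]
      unfold Phi
      rw [Finset.sum_mul, Finset.mul_sum, ← Finset.sum_sub_distrib]
      refine Finset.sum_eq_zero fun p hp => ?_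
      rw [smul_mul_assoc, mul_smul_comm, h4 p (Nat.lt_succ_iff.1 (Finset.mem_range.1 hp)), sub_self]
    | zero => rw [mul_zero, zero_mul]
    | add a b _ _ ha hb => rw [mul_add, add_mul, ha, hb]
    | smul r a _ ha => rw [mul_smul_comm, smul_mul_assoc, ha]
  -- the components
  obtain ⟨u, hu⟩ : ∃ u, u = prU Y c X := ⟨_, rfl⟩
  have huU : u ∈ Ul I E := by rw [hu]; exact prU_mem hob X
  have hvo : ∀ Z ∈ Ul I E, ((X - u) * Z).trace = 0 := by
    intro Z hZ
    rw [hu]
    exact prU_orth hob X hZ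
  have hvz : X - u ∈ Zz I E := by
    refine orth_comm nd (fun Z hZ => ?_) hvo (skew_sub hXs huU.2)
    have h5 : (X - u) * Z - Z * (X - u) = (X * Z - Z * X) - (u * Z - Z * u) := by
      rw [sub_mul, mul_sub]
      abel
    rw [h5]
    exact Submodule.sub_mem _ (hst Z hZ) (Ul_br huU hZ)
  -- the centre of the centralizer
  obtain ⟨Cc, hCc⟩ : ∃ Cc : Submodule ℂ (Matrix n n ℂ), ∀ z, z ∈ Cc ↔
      z ∈ Zz I E ∧ ∀ y ∈ Zz I E, z * y = y * z := by
    refine ⟨{ carrier := {z | z ∈ Zz I E ∧ ∀ y ∈ Zz I E, z * y = y * z}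
              zero_mem' := ⟨Submodule.zero_mem _, fun y _ => by rw [zero_mul, mul_zero]⟩
              add_mem' := ?_
              smul_mem' := ?_ }, fun z => Iff.rfl⟩
    · rintro a b ⟨ha, ha'⟩ ⟨hb, hb'⟩
      exact ⟨Submodule.add_mem _ ha hb, fun y hy => by rw [add_mul, mul_add, ha' y hy, hb' y hy]⟩
    · rintro r a ⟨ha, ha'⟩
      exact ⟨Submodule.smul_mem _ _ ha, fun y hy => by rw [smul_mul_assoc, mul_smul_comm, ha' y hy]⟩
  have hCaut : ∀ (τ : ℂ ≃+* ℂ), ∀ z ∈ Cc, z.map τ ∈ Cc := by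
    intro τ z hz
    rw [hCc] at hz ⊢
    refine ⟨Zz_aut τ hz.1, fun y hy => ?_⟩
    have h4 := hz.2 _ (Zz_aut τ.symm hy)
    have h5 : (y.map τ.symm).map τ = y := by
      ext i j
      simp
    have h6 := congrArg (fun M : Matrix n n ℂ => M.map τ) h4
    simp only [map_mul', h5] at h6
    exact h6
  have hUz : ∀ Z ∈ Ul I E, ∀ y ∈ Zz I E, Z * y = y * Z := fun Z hZ y hy => (hy.1 Z hZ).symm
  have hvC : X - u ∈ Cc := by
    rw [hCc]
    exact ⟨hvz, fun y hy => by rw [sub_mul, mul_sub, hcz y hy, hUz u huU y hy]⟩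
  -- orthogonality to the centre
  have htrC : ∀ y ∈ Cc, (Phi w π * y).trace = (Phi w π' * y).trace := by
    intro y hy
    have hdes := desc Cc hCaut hy
    clear hy
    induction hdes using Submodule.span_induction with
    | mem z hz =>
      obtain ⟨Q, rfl, hQ'⟩ := hz
      have h4 := ((hCc _).1 hQ').1
      obtain ⟨h5, h6⟩ := hrat Q h4
      rw [trace_mul_comm, trace_mul_comm (Phi w π')]
      refine hQ Q h5 (fun p x hx => ?_) (hztH Q h5) π π' hπ hπ' h1 h1' h2 h2'
      by_cases hp : p ≤ w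
      · rw [← h2' p x hx, mulVec_mulVec, ← h6 p hp, ← mulVec_mulVec]
        exact h1' _ _
      · rw [hV'.top p (by omega), Submodule.mem_bot] at hx
        rw [hx, mulVec_zero]
        exact Submodule.zero_mem _
    | zero => rw [mul_zero, mul_zero]
    | add a b _ _ ha hb => rw [mul_add, mul_add, trace_add, trace_add, ha, hb]
    | smul r a _ ha => rw [mul_smul_comm, mul_smul_comm, trace_smul, trace_smul, ha]
  have horth : ∀ y ∈ Cc, ((X - u) * y).trace = 0 := by
    intro y hy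
    obtain ⟨hy1, hy2⟩ := (hCc y).1 hy
    obtain ⟨cy, hcy⟩ : ∃ cy, cy = prU Y c y := ⟨_, rfl⟩
    have hcU : cy ∈ Ul I E := by rw [hcy]; exact prU_mem hob y
    have hyo : ∀ Z ∈ Ul I E, ((y - cy) * Z).trace = 0 := by
      intro Z hZ
      rw [hcy]
      exact prU_orth hob y hZ
    have hyz : y - cy ∈ Zz I E := by
      refine orth_comm nd (fun Z hZ => ?_) hyo (skew_sub hy1.2 hcU.2)
      have h5 : (y - cy) * Z - Z * (y - cy) = (y * Z - Z * y) - (cy * Z - Z * cy) := by
        rw [sub_mul, mul_sub]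
        abel
      rw [h5, hy1.1 Z hZ, sub_self]
      exact Submodule.sub_mem _ (Submodule.zero_mem _) (Ul_br hcU hZ)
    have hyC : y - cy ∈ Cc := by
      rw [hCc]
      exact ⟨hyz, fun y' hy' => by rw [sub_mul, mul_sub, hy2 y' hy', hUz cy hcU y' hy']⟩
    have h5 : ((X - u) * cy).trace = 0 := hvo cy hcU
    have h6 : (u * (y - cy)).trace = 0 := by
      rw [trace_mul_comm]
      exact hyo u huU
    have h7 : (Phi' w π * (y - cy)).trace = 0 := by
      rw [trace_mul_comm]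
      exact hyo _ (Phi'_mem hπ hw hG hI')
    have h8 : (X * (y - cy)).trace = 0 := by
      have h9 := htrC _ hyC
      rw [hX]
      unfold Phi' at h7 ⊢
      rw [sub_mul, trace_sub] at h7 ⊢
      rw [← h9]
      exact h7
    have h10 : (X - u) * y = (X - u) * cy + (X * (y - cy) - u * (y - cy)) := by
      rw [sub_mul, sub_mul, mul_sub, mul_sub]
      abel
    rw [h10, trace_add, trace_sub, h5, h6, h8, sub_zero, add_zero]
  -- so it vanishes
  have hv0 : X - u = 0 := by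
    obtain ⟨v, hv⟩ : ∃ v, v = X - u := ⟨_, rfl⟩
    rw [← hv] at hvC hvz horth ⊢
    have hvb : v.map (starRingEnd ℂ) ∈ Zz I E := Zz_aut (starRingAut : ℂ ≃+* ℂ) hvz
    have hvbC : v.map (starRingEnd ℂ) ∈ Cc := hCaut (starRingAut : ℂ ≃+* ℂ) _ hvC
    have hcomm := comm_C hπ hw hG hI' hvb
    have hsk := eq_neg_of_add_eq_zero_left hvb.2
    have htr : (v * -v.map (starRingEnd ℂ)).trace = 0 := horth _ (Submodule.neg_mem _ hvbC)
    have e1 : vᴴ = (v.map (starRingEnd ℂ))ᵀ := rfl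
    rcases Nat.even_or_odd w with he | ho
    · refine nd_gen (gram_even hV he hπ h1) ?_ htr
      rw [e1, mul_neg, mul_assoc, hcomm, ← mul_assoc, ← neg_mul, ← hsk, mul_assoc]
    · refine nd_gen (gram hV ho hπ h1) ?_ htr
      rw [e1, mul_neg, neg_mul, neg_neg, mul_assoc, hcomm, ← mul_assoc, mul_neg, ← mul_assoc, hsk,
        neg_mul, neg_neg]
  have hXU : X ∈ Ul I E := by
    rw [sub_eq_zero.1 hv0]
    exact huU
  have hPhi : Phi w π' ∈ lieOf (zeros I ℂ) := by
    have h5 : Phi w π' = X + ((w : ℂ) / 2) • 1 := by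
      rw [hX]
      unfold Phi'
      abel
    rw [h5]
    exact Submodule.add_mem _ hXU.1 (Submodule.smul_mem _ _ (one_mem_lie hπ hw hG hI'))
  obtain ⟨z, hz0, hTz⟩ := torus_eq hV' hπ' h2' hTV
  have hc : starRingEnd ℂ z ≠ 0 := (map_ne_zero _).2 hz0
  rw [hTz, hz_eq hz0]
  have h6 := hG.2.1 _ (scal_mem hπ hw hI' (pow_ne_zero w hc)) _
    (torus_of_phi hπ' hG hPhi (div_ne_zero hz0 hc))
  rw [smul_mul_assoc, one_mul] at h6
  exact h6

end Pool.Agent.MT100A.H34
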